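import Pool.Agent.E8helper19.RP.Sp

set_option autoImplicit false

/-!
# Random perturbations: the mean over the perturbations and the integers on short intervals
-/

namespace Pool.Agent.E8helper19.RP

open MeasureTheory Finset Pool.Agent.Y959.Her Pool.Agent.Y959.Rs Pool.Agent.TH705.DL

theorem wcs (K : ℕ) (c : ℕ → ℝ) :
    (∑ k ∈ range K, 1 / (k.factorial : ℝ) * c k) ^ 2 ≤
      3 * ∑ k ∈ range K, 1 / (k.factorial : ℝ) * c k ^ 2 := by
  have h1 := sum_mul_sq_le_sq_mul_sq (range K) (fun k => Real.sqrt (1 / (k.factorial : ℝ)))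
    (fun k => Real.sqrt (1 / (k.factorial : ℝ)) * c k)
  have e1 : ∀ k ∈ range K, Real.sqrt (1 / (k.factorial : ℝ)) * (Real.sqrt (1 / (k.factorial : ℝ)) * c k) =
      1 / (k.factorial : ℝ) * c k := by
    intro k _
    rw [← mul_assoc, Real.mul_self_sqrt (by positivity)]
  have e2 : ∀ k ∈ range K, Real.sqrt (1 / (k.factorial : ℝ)) ^ 2 = 1 ^ k / (k.factorial : ℝ) := by
    intro k _
    rw [Real.sq_sqrt (by positivity), one_pow]
  have e3 : ∀ k ∈ range K, (Real.sqrt (1 / (k.factorial : ℝ)) * c k) ^ 2 =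
      1 / (k.factorial : ℝ) * c k ^ 2 := by
    intro k _
    rw [mul_pow, Real.sq_sqrt (by positivity)]
  rw [sum_congr rfl e1, sum_congr rfl e2, sum_congr rfl e3] at h1
  refine h1.trans ?_
  have h2 := Real.sum_le_exp_of_nonneg (x := 1) zero_le_one K
  have h3 := Real.exp_one_lt_d9
  have h4 : 0 ≤ ∑ k ∈ range K, 1 / (k.factorial : ℝ) * c k ^ 2 :=
    sum_nonneg fun k _ => by positivity
  exact mul_le_mul_of_nonneg_right (by linarith) h4

/-- **The mean over the perturbations in terms of the integers on intervals of length `1/η`.** -/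
theorem av_three (N T : ℕ) (hN : 1 ≤ N) (η : ℝ) (hη : 0 < η)
    (W : Finset (Fin (2 * T + 1))) (b : Fin (2 * T + 1) → Fin 4) (Φ : ℤ → ℝ)
    (hΦ : ∀ (J : ℤ) (a : Fin (2 * T + 1) → ℂ), (∀ i, ‖a i‖ ≤ 1) →
      ∑ n : Fin (N + 1), ‖∑ i ∈ W.filter (fun i => ⌊η * (zz T i : ℤ)⌋ = J),
        a i * ph ((zz T i : ℤ) : ℝ) (N + n)‖ ^ 2 ≤ Φ J) :
    av (ee N T) η W b ≤ 115 * ∑ J ∈ W.image (fun i => ⌊η * (zz T i : ℤ)⌋), Φ J +
      8 * (W.card : ℝ) ^ 2 := by
  classical
  have hpi := Real.pi_gt_three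
  have hpi2 := Real.pi_lt_d2
  set cl : Fin (2 * T + 1) → ℤ := fun i => ⌊η * (zz T i : ℤ)⌋ with hcl
  set th : Fin (2 * T + 1) → ℝ := fun i => η * (zz T i : ℤ) - cl i with hth
  have hth0 : ∀ i, 0 ≤ th i := fun i => by
    rw [hth]
    simp only
    linarith [Int.floor_le (η * (zz T i : ℤ))]
  have hth1 : ∀ i, th i ≤ 1 := fun i => by
    rw [hth]
    simp only
    linarith [Int.lt_floor_add_one (η * (zz T i : ℤ))]
  -- the terms of the expansion
  set A : ℕ → Fin (2 * T + 1) → ℂ := fun k i => phs (b i) * (Complex.I * th i) ^ k with hA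
  have hA1 : ∀ k i, ‖A k i‖ ≤ 1 := by
    intro k i
    rw [hA]
    simp only
    rw [norm_mul, norm_pow, norm_mul, Complex.norm_I, (phs_isPh _).norm, one_mul, one_mul,
      Complex.norm_real, Real.norm_of_nonneg (hth0 i)]
    exact pow_le_one₀ (hth0 i) (hth1 i)
  set S : ℕ → Fin (N + 1) → ℝ → ℂ := fun k n y => ∑ i ∈ W, A k i * ph ((zz T i : ℤ) : ℝ) (N + n) *
    Complex.exp (((cl i : ℝ) * y : ℝ) * Complex.I) with hS
  set C : ℕ → Fin (N + 1) → ℤ → ℂ := fun k n J => ∑ i ∈ W.filter (fun i => cl i = J),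
    A k i * ph ((zz T i : ℤ) : ℝ) (N + n) with hC
  have hSC : ∀ k n y, S k n y = ∑ J ∈ W.image cl, C k n J *
      Complex.exp ((((J : ℤ) : ℝ) * y : ℝ) * Complex.I) := by
    intro k n y
    rw [hS, hC]
    simp only
    rw [← sum_fiberwise_of_maps_to (s := W) (t := W.image cl) (g := cl)
      (fun i hi => mem_image_of_mem _ hi)]
    apply sum_congr rfl
    intro J _
    rw [sum_mul]
    apply sum_congr rfl
    intro i hi
    rw [(mem_filter.1 hi).2]
  have hScont : ∀ k n, Continuous (S k n) := by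
    intro k n
    rw [hS]
    exact continuous_finsetSum _ fun l _ => continuous_const.mul (by fun_prop)
  -- the mean square of one term
  have hone : ∀ k n, ∫ x in (0 : ℝ)..η, ‖S k n (x / η)‖ ^ 2 ≤ η * (7 * ∑ J ∈ W.image cl, ‖C k n J‖ ^ 2) := by
    intro k n
    have h1 : ∫ x in (0 : ℝ)..η, ‖S k n (x / η)‖ ^ 2 = η * ∫ y in (0 : ℝ)..1, ‖S k n y‖ ^ 2 := by
      rw [intervalIntegral.integral_comp_div (fun y => ‖S k n y‖ ^ 2) hη.ne', zero_div,
        div_self hη.ne', smul_eq_mul]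
    rw [h1]
    apply mul_le_mul_of_nonneg_left _ hη.le
    have hgc : Continuous fun y => ‖S k n y‖ ^ 2 := (hScont k n).norm.pow 2
    have h2 : ∫ y in (0 : ℝ)..1, ‖S k n y‖ ^ 2 ≤ ∫ y in (0 : ℝ)..(0 + 2 * Real.pi), ‖S k n y‖ ^ 2 := by
      rw [← intervalIntegral.integral_add_adjacent_intervals (hgc.intervalIntegrable 0 1)
        (hgc.intervalIntegrable 1 (0 + 2 * Real.pi))]
      have h3 : 0 ≤ ∫ y in (1 : ℝ)..(0 + 2 * Real.pi), ‖S k n y‖ ^ 2 :=
        intervalIntegral.integral_nonneg (by linarith) fun y _ => sq_nonneg _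
      linarith
    refine h2.trans ?_
    have h3 := parseval (W.image cl) (fun J => J) (Set.injOn_id _) (C k n) 0
    simp_rw [hSC]
    rw [h3]
    have h4 : 0 ≤ ∑ J ∈ W.image cl, ‖C k n J‖ ^ 2 := sum_nonneg fun _ _ => sq_nonneg _
    nlinarith
  -- the expansion
  obtain ⟨K, hK⟩ : ∃ K : ℕ, K = N + 1 := ⟨_, rfl⟩
  obtain ⟨ρ, hρ⟩ : ∃ ρ : ℝ, ρ = 2 / (K.factorial : ℝ) := ⟨_, rfl⟩
  have hρ0 : 0 ≤ ρ := by rw [hρ]; positivity
  have hexp : ∀ n (x : ℝ), 0 ≤ x → x ≤ η → ‖fs (ee N T) W b n x‖ ^ 2 ≤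
      2 * (3 * ∑ k ∈ range K, 1 / (k.factorial : ℝ) * ‖S k n (x / η)‖ ^ 2) + 2 * (W.card * ρ) ^ 2 := by
    intro n x hx0 hx1
    obtain ⟨y, hy⟩ : ∃ y, y = x / η := ⟨_, rfl⟩
    have hy0 : 0 ≤ y := by rw [hy]; positivity
    have hy1 : y ≤ 1 := by rw [hy, div_le_one hη]; exact hx1
    have hxy : x = η * y := by rw [hy]; field_simp
    rw [← hy]
    have h1 : fs (ee N T) W b n x = ∑ i ∈ W, phs (b i) * ph ((zz T i : ℤ) : ℝ) (N + n) *
        Complex.exp (((cl i : ℝ) * y : ℝ) * Complex.I) * Complex.exp (Complex.I * th i * y) := by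
      unfold fs ee
      apply sum_congr rfl
      intro i _
      rw [mul_assoc, mul_assoc, ph_eq, ← Complex.exp_add, ← Complex.exp_add]
      congr 2
      rw [hxy, hth]
      push_cast
      ring
    have h2 : fs (ee N T) W b n x = ∑ k ∈ range K, ((1 / (k.factorial : ℝ) * y ^ k : ℝ) : ℂ) * S k n y +
        ∑ i ∈ W, phs (b i) * ph ((zz T i : ℤ) : ℝ) (N + n) *
          Complex.exp (((cl i : ℝ) * y : ℝ) * Complex.I) * (Complex.exp (Complex.I * th i * y) -
            ∑ k ∈ range K, (Complex.I * th i * y) ^ k / (k.factorial : ℂ)) := by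
      rw [h1, hS]
      simp only
      simp_rw [mul_sum]
      rw [sum_comm, ← sum_add_distrib]
      apply sum_congr rfl
      intro i _
      rw [mul_sub, mul_sum]
      have h3 : ∀ k ∈ range K, phs (b i) * ph ((zz T i : ℤ) : ℝ) (N + n) *
          Complex.exp (((cl i : ℝ) * y : ℝ) * Complex.I) *
            ((Complex.I * th i * y) ^ k / (k.factorial : ℂ)) =
          ((1 / (k.factorial : ℝ) * y ^ k : ℝ) : ℂ) * (A k i * ph ((zz T i : ℤ) : ℝ) (N + n) *
            Complex.exp (((cl i : ℝ) * y : ℝ) * Complex.I)) := by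
        intro k _
        rw [hA]
        simp only
        push_cast
        rw [mul_pow]
        ring
      rw [sum_congr rfl h3]
      ring
    have h3 : ‖∑ i ∈ W, phs (b i) * ph ((zz T i : ℤ) : ℝ) (N + n) *
          Complex.exp (((cl i : ℝ) * y : ℝ) * Complex.I) * (Complex.exp (Complex.I * th i * y) -
            ∑ k ∈ range K, (Complex.I * th i * y) ^ k / (k.factorial : ℂ))‖ ≤ W.card * ρ := by
      refine (norm_sum_le _ _).trans ?_
      calc ∑ i ∈ W, ‖phs (b i) * ph ((zz T i : ℤ) : ℝ) (N + n) *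
          Complex.exp (((cl i : ℝ) * y : ℝ) * Complex.I) * (Complex.exp (Complex.I * th i * y) -
            ∑ k ∈ range K, (Complex.I * th i * y) ^ k / (k.factorial : ℂ))‖ ≤ ∑ i ∈ W, ρ := by
            apply sum_le_sum
            intro i _
            rw [norm_mul, norm_mul, norm_mul, (phs_isPh _).norm, ph_norm,
              Complex.norm_exp_ofReal_mul_I, one_mul, one_mul, one_mul]
            have h4 : ‖Complex.I * th i * (y : ℂ)‖ ≤ 1 := by
              rw [norm_mul, norm_mul, Complex.norm_I, one_mul, Complex.norm_real, Complex.norm_real,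
                Real.norm_of_nonneg (hth0 i), Real.norm_of_nonneg hy0]
              exact mul_le_one₀ (hth1 i) hy0 hy1
            have h5 := Complex.exp_bound h4 (n := K) (by omega)
            refine h5.trans ?_
            have h6 : ‖Complex.I * th i * (y : ℂ)‖ ^ K ≤ 1 := pow_le_one₀ (norm_nonneg _) h4
            have h7 : ((K.succ : ℕ) : ℝ) * ((K.factorial : ℝ) * K)⁻¹ ≤ ρ := by
              have hK1 : (1 : ℝ) ≤ K := by exact_mod_cast (by omega : 1 ≤ K)
              have hf : (0 : ℝ) < K.factorial := by exact_mod_cast Nat.factorial_pos K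
              rw [hρ]
              push_cast
              rw [← div_eq_mul_inv, div_le_div_iff₀ (by positivity) hf]
              nlinarith
            have h8 : 0 ≤ ((K.succ : ℕ) : ℝ) * ((K.factorial : ℝ) * K)⁻¹ := by positivity
            calc ‖Complex.I * th i * (y : ℂ)‖ ^ K * (((K.succ : ℕ) : ℝ) * ((K.factorial : ℝ) * K)⁻¹)
                ≤ 1 * (((K.succ : ℕ) : ℝ) * ((K.factorial : ℝ) * K)⁻¹) :=
                  mul_le_mul_of_nonneg_right h6 h8
              _ ≤ ρ := by rw [one_mul]; exact h7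
        _ = _ := by rw [sum_const, nsmul_eq_mul]
    have h4 : ‖∑ k ∈ range K, ((1 / (k.factorial : ℝ) * y ^ k : ℝ) : ℂ) * S k n y‖ ≤
        ∑ k ∈ range K, 1 / (k.factorial : ℝ) * ‖S k n y‖ := by
      refine (norm_sum_le _ _).trans (sum_le_sum fun k _ => ?_)
      rw [norm_mul, Complex.norm_real, Real.norm_of_nonneg (by positivity)]
      apply mul_le_mul_of_nonneg_right _ (norm_nonneg _)
      apply mul_le_of_le_one_right (by positivity)
      exact pow_le_one₀ hy0 hy1
    have h5 := wcs K (fun k => ‖S k n y‖)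
    have h6 : ‖fs (ee N T) W b n x‖ ≤ ∑ k ∈ range K, 1 / (k.factorial : ℝ) * ‖S k n y‖ + W.card * ρ := by
      rw [h2]
      exact (norm_add_le _ _).trans (add_le_add h4 h3)
    have h7 : ‖fs (ee N T) W b n x‖ ^ 2 ≤
        (∑ k ∈ range K, 1 / (k.factorial : ℝ) * ‖S k n y‖ + W.card * ρ) ^ 2 :=
      pow_le_pow_left₀ (norm_nonneg _) h6 2
    have h8 := add_sq_le (a := ∑ k ∈ range K, 1 / (k.factorial : ℝ) * ‖S k n y‖) (b := W.card * ρ)
    linarith
  -- the integral for one frequency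
  have hint : ∀ n, ∫ x in (0 : ℝ)..η, ‖fs (ee N T) W b n x‖ ^ 2 ≤
      η * (42 * ∑ k ∈ range K, 1 / (k.factorial : ℝ) * ∑ J ∈ W.image cl, ‖C k n J‖ ^ 2) +
        η * (2 * (W.card * ρ) ^ 2) := by
    intro n
    have hc1 : Continuous fun x => ‖fs (ee N T) W b n x‖ ^ 2 :=
      ((fs_cont (ee N T) (ee_cont N T) W b n).norm).pow 2
    have hc2 : ∀ k, Continuous fun x => 1 / (k.factorial : ℝ) * ‖S k n (x / η)‖ ^ 2 := fun k =>
      continuous_const.mul ((((hScont k n).comp (continuous_id.div_const η)).norm).pow 2)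
    have hc3 : Continuous fun x => 2 * (3 * ∑ k ∈ range K, 1 / (k.factorial : ℝ) * ‖S k n (x / η)‖ ^ 2) +
        2 * (W.card * ρ) ^ 2 := by
      apply Continuous.add _ continuous_const
      apply Continuous.mul continuous_const
      apply Continuous.mul continuous_const
      exact continuous_finsetSum _ fun k _ => hc2 k
    have hd1 : IntervalIntegrable (fun x => ‖fs (ee N T) W b n x‖ ^ 2) volume 0 η :=
      hc1.intervalIntegrable 0 η
    have hd3 : IntervalIntegrable (fun x => 2 * (3 * ∑ k ∈ range K, 1 / (k.factorial : ℝ) *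
        ‖S k n (x / η)‖ ^ 2) + 2 * (W.card * ρ) ^ 2) volume 0 η := hc3.intervalIntegrable 0 η
    have h1 := intervalIntegral.integral_mono_on hη.le hd1 hd3
      (fun x hx => hexp n x hx.1 hx.2)
    refine h1.trans ?_
    have hc4 : Continuous fun x => ∑ k ∈ range K, 1 / (k.factorial : ℝ) * ‖S k n (x / η)‖ ^ 2 :=
      continuous_finsetSum _ fun k _ => hc2 k
    have hc5 : IntervalIntegrable (fun x => 2 * (3 * ∑ k ∈ range K, 1 / (k.factorial : ℝ) *
        ‖S k n (x / η)‖ ^ 2)) volume 0 η :=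
      (continuous_const.mul (continuous_const.mul hc4)).intervalIntegrable _ _
    have hc6 : IntervalIntegrable (fun _ : ℝ => 2 * (W.card * ρ) ^ 2) volume 0 η :=
      continuous_const.intervalIntegrable _ _
    have hc7 : ∀ k ∈ range K, IntervalIntegrable (fun x => 1 / (k.factorial : ℝ) *
        ‖S k n (x / η)‖ ^ 2) volume 0 η := fun k _ => (hc2 k).intervalIntegrable _ _
    rw [intervalIntegral.integral_add hc5 hc6, intervalIntegral.integral_const_mul,
      intervalIntegral.integral_const_mul, intervalIntegral.integral_finsetSum hc7,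
      intervalIntegral.integral_const, sub_zero, smul_eq_mul]
    have h2 : ∑ k ∈ range K, ∫ x in (0 : ℝ)..η, 1 / (k.factorial : ℝ) * ‖S k n (x / η)‖ ^ 2 ≤
        ∑ k ∈ range K, 1 / (k.factorial : ℝ) * (η * (7 * ∑ J ∈ W.image cl, ‖C k n J‖ ^ 2)) := by
      apply sum_le_sum
      intro k _
      rw [intervalIntegral.integral_const_mul]
      exact mul_le_mul_of_nonneg_left (hone k n) (by positivity)
    have h3 : ∑ k ∈ range K, 1 / (k.factorial : ℝ) * (η * (7 * ∑ J ∈ W.image cl, ‖C k n J‖ ^ 2)) =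
        7 * η * ∑ k ∈ range K, 1 / (k.factorial : ℝ) * ∑ J ∈ W.image cl, ‖C k n J‖ ^ 2 := by
      rw [mul_sum]
      apply sum_congr rfl
      intro k _
      ring
    rw [h3] at h2
    nlinarith
  -- the sum over the frequencies
  have hsum : ∀ k, ∑ n : Fin (N + 1), ∑ J ∈ W.image cl, ‖C k n J‖ ^ 2 ≤ ∑ J ∈ W.image cl, Φ J := by
    intro k
    rw [sum_comm]
    apply sum_le_sum
    intro J _
    exact hΦ J (A k) (hA1 k)
  have hΦ0 : 0 ≤ ∑ J ∈ W.image cl, Φ J := by
    refine le_trans ?_ (hsum 0)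
    exact sum_nonneg fun _ _ => sum_nonneg fun _ _ => sq_nonneg _
  unfold av
  rw [← sum_div, div_le_iff₀ hη]
  refine (sum_le_sum fun n _ => hint n).trans ?_
  rw [sum_add_distrib, ← mul_sum, ← mul_sum, sum_const, card_univ, Fintype.card_fin, nsmul_eq_mul]
  have h1 : ∑ n : Fin (N + 1), ∑ k ∈ range K, 1 / (k.factorial : ℝ) * ∑ J ∈ W.image cl, ‖C k n J‖ ^ 2 ≤
      2.7182818286 * ∑ J ∈ W.image cl, Φ J := by
    rw [sum_comm]
    calc ∑ k ∈ range K, ∑ n : Fin (N + 1), 1 / (k.factorial : ℝ) * ∑ J ∈ W.image cl, ‖C k n J‖ ^ 2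
        ≤ ∑ k ∈ range K, 1 ^ k / (k.factorial : ℝ) * ∑ J ∈ W.image cl, Φ J := by
          apply sum_le_sum
          intro k _
          rw [← mul_sum, one_pow]
          exact mul_le_mul_of_nonneg_left (hsum k) (by positivity)
      _ = (∑ k ∈ range K, 1 ^ k / (k.factorial : ℝ)) * ∑ J ∈ W.image cl, Φ J := by rw [sum_mul]
      _ ≤ _ := by
          apply mul_le_mul_of_nonneg_right _ hΦ0
          have h2 := Real.sum_le_exp_of_nonneg (x := 1) zero_le_one K
          have h3 := Real.exp_one_lt_d9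
          linarith
  have h2 : ((N + 1 : ℕ) : ℝ) * (2 * (W.card * ρ) ^ 2) ≤ 8 * (W.card : ℝ) ^ 2 := by
    have hK1 : (1 : ℝ) ≤ K := by exact_mod_cast (by omega : 1 ≤ K)
    have hf : (K : ℝ) ≤ K.factorial := by exact_mod_cast Nat.self_le_factorial K
    have h3 : (K : ℝ) * ρ ^ 2 ≤ 4 := by
      rw [hρ, div_pow, mul_div_assoc', div_le_iff₀ (by positivity)]
      nlinarith
    have e : ((N + 1 : ℕ) : ℝ) * (2 * (W.card * ρ) ^ 2) = 2 * (W.card : ℝ) ^ 2 * (K * ρ ^ 2) := by
      rw [← hK]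
      ring
    rw [e]
    have h4 : 0 ≤ 2 * (W.card : ℝ) ^ 2 := by positivity
    nlinarith
  have h3 : η * (42 * ∑ n : Fin (N + 1), ∑ k ∈ range K, 1 / (k.factorial : ℝ) *
      ∑ J ∈ W.image cl, ‖C k n J‖ ^ 2) ≤ η * (115 * ∑ J ∈ W.image cl, Φ J) := by
    apply mul_le_mul_of_nonneg_left _ hη.le
    linarith
  have h4 : ((N + 1 : ℕ) : ℝ) * (η * (2 * (W.card * ρ) ^ 2)) ≤ η * (8 * (W.card : ℝ) ^ 2) := by
    have := mul_le_mul_of_nonneg_left h2 hη.le
    linarith
  linarith

end Pool.Agent.E8helper19.RP
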