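import Pool.Agent.E8helper19.RP.Fin

set_option autoImplicit false

/-!
# Random perturbations of the frequencies `log n`: conclusions
-/

namespace Pool.Agent.E8helper19.RP

open MeasureTheory Finset Pool.Agent.Y959.Her Pool.Agent.Y959.Rs Pool.Agent.TH705.DL

/-- the indices of a set of integers -/
noncomputable def idx (T : ℕ) (W : Finset ℤ) : Finset (Fin (2 * T + 1)) :=
  W.preimage (zz T) ((zz_inj T).injOn)

theorem mem_idx (T : ℕ) (W : Finset ℤ) (i : Fin (2 * T + 1)) : i ∈ idx T W ↔ zz T i ∈ W := by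
  unfold idx
  rw [mem_preimage]

theorem idx_image (T : ℕ) (W : Finset ℤ) (hW : ∀ t ∈ W, |t| ≤ T) : (idx T W).image (zz T) = W := by
  ext t
  rw [mem_image]
  constructor
  · rintro ⟨i, hi, rfl⟩
    exact (mem_idx T W i).1 hi
  · intro ht
    have h1 := abs_le.1 (hW t ht)
    have h2 : (t + T).toNat < 2 * T + 1 := by omega
    have h3 : zz T ⟨(t + T).toNat, h2⟩ = t := by
      unfold zz
      simp only
      omega
    refine ⟨⟨(t + T).toNat, h2⟩, ?_, h3⟩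
    rw [mem_idx, h3]
    exact ht

theorem idx_card (T : ℕ) (W : Finset ℤ) (hW : ∀ t ∈ W, |t| ≤ T) : (idx T W).card = W.card := by
  rw [← card_image_of_injective (idx T W) (zz_inj T), idx_image T W hW]

/-- the structural inequality -/
theorem con_struct (N T : ℕ) (hN : 1 ≤ N) (η C L : ℝ) (hη : 0 < η) (hC : 0 ≤ C) (hL1 : 1 ≤ L)
    (v : Fin (N + 1) → ℝ) (hv : Bas N T η C L v) (W : Finset ℤ) (hW : ∀ t ∈ W, |t| ≤ T)
    (b : Fin (N + 1) → ℂ) (V : ℝ) (hV : 0 ≤ V) (hVW : ∀ t ∈ W, V ≤ ‖DD N v b (t : ℝ)‖) (Φ : ℤ → ℝ)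
    (hΦ : ∀ (J : ℤ) (a : ℤ → ℂ), (∀ t, ‖a t‖ ≤ 1) →
      ∑ m ∈ Icc N (2 * N), ‖∑ t ∈ W.filter (fun t : ℤ => ⌊η * (t : ℝ)⌋ = J),
        a t * Complex.exp (((t * Real.log m : ℝ) : ℂ) * Complex.I)‖ ^ 2 ≤ Φ J) :
    V ^ 2 * (W.card : ℝ) ^ 2 ≤ 123 * C * (∑ n, ‖b n‖ ^ 2) *
      (L * ∑ J ∈ W.image (fun t : ℤ => ⌊η * (t : ℝ)⌋), Φ J +
        L ^ 3 * (W.card : ℝ) ^ 2 + N) := by
  classical
  have hN1 : (1 : ℝ) ≤ N := by exact_mod_cast hN
  have hG0 : 0 ≤ ∑ n, ‖b n‖ ^ 2 := sum_nonneg fun _ _ => sq_nonneg _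
  rcases W.eq_empty_or_nonempty with hWe | hWne
  · rw [hWe]
    simp only [card_empty, image_empty, sum_empty, Nat.cast_zero]
    have : 0 ≤ 123 * C * (∑ n, ‖b n‖ ^ 2) * (N : ℝ) := by positivity
    norm_num
    positivity
  have hcard := idx_card T W hW
  have hne : (idx T W).Nonempty := by
    rw [← card_pos, hcard]
    exact card_pos.2 hWne
  obtain ⟨β, hβ⟩ := hv (idx T W) b V hne hV (fun i hi => hVW _ ((mem_idx T W i).1 hi))
  rw [hcard] at hβ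
  have hIcc : ∀ f : ℕ → ℝ, ∑ m ∈ Icc N (2 * N), f m = ∑ n : Fin (N + 1), f (N + n) := by
    intro f
    have h4 : Icc N (2 * N) = Ico N (2 * N + 1) := by
      ext n
      simp only [mem_Icc, mem_Ico]
      omega
    rw [h4, sum_Ico_eq_sum_range]
    have h5 : 2 * N + 1 - N = N + 1 := by omega
    rw [h5, Fin.sum_univ_eq_sum_range (fun n => f (N + n))]
  have himg : (idx T W).image (fun i => ⌊η * (zz T i : ℤ)⌋) =
      W.image (fun t : ℤ => ⌊η * (t : ℝ)⌋) := by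
    conv_rhs => rw [← idx_image T W hW]
    rw [image_image]
    rfl
  have h1 := av_three N T hN η hη (idx T W) β Φ (by
    intro J a ha
    set a' : ℤ → ℂ := fun t => if h : ∃ i, zz T i = t then a h.choose else 0 with ha'
    have ha1 : ∀ t, ‖a' t‖ ≤ 1 := by
      intro t
      rw [ha']
      simp only
      split_ifs with h
      · exact ha _
      · simp
    have ha2 : ∀ i, a' (zz T i) = a i := by
      intro i
      rw [ha']
      simp only
      have h : ∃ j, zz T j = zz T i := ⟨i, rfl⟩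
      rw [dif_pos h]
      congr 1
      exact zz_inj T h.choose_spec
    have h2 := hΦ J a' ha1
    rw [hIcc] at h2
    refine le_trans (le_of_eq ?_) h2
    apply sum_congr rfl
    intro n _
    congr 2
    have h3 : W.filter (fun t : ℤ => ⌊η * (t : ℝ)⌋ = J) =
        ((idx T W).filter (fun i => ⌊η * (zz T i : ℤ)⌋ = J)).image (zz T) := by
      ext t
      rw [mem_filter, mem_image]
      constructor
      · rintro ⟨ht, hJ⟩
        rw [← idx_image T W hW, mem_image] at ht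
        obtain ⟨i, hi, rfl⟩ := ht
        exact ⟨i, mem_filter.2 ⟨hi, hJ⟩, rfl⟩
      · rintro ⟨i, hi, rfl⟩
        rw [mem_filter, mem_idx] at hi
        exact hi
    rw [h3, sum_image (fun i _ j _ h => zz_inj T h)]
    apply sum_congr rfl
    intro i _
    rw [ha2, ph_eq])
  rw [himg, hcard] at h1
  obtain ⟨S, hS⟩ : ∃ S, S = ∑ J ∈ W.image (fun t : ℤ => ⌊η * (t : ℝ)⌋), Φ J := ⟨_, rfl⟩
  rw [← hS] at h1 ⊢
  obtain ⟨w, hw⟩ : ∃ w : ℝ, w = (W.card : ℝ) := ⟨_, rfl⟩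
  rw [← hw] at h1 hβ ⊢
  have hS0 : 0 ≤ S := by
    rw [hS]
    apply sum_nonneg
    intro J _
    refine le_trans ?_ (hΦ J (fun _ => 0) (by intro t; simp))
    exact sum_nonneg fun _ _ => sq_nonneg _
  refine hβ.trans ?_
  have h3 : L * av (ee N T) η (idx T W) β + L ^ 3 * w ^ 2 + N ≤
      123 * (L * S + L ^ 3 * w ^ 2 + N) := by
    have h4 : L * av (ee N T) η (idx T W) β ≤ L * (115 * S + 8 * w ^ 2) :=
      mul_le_mul_of_nonneg_left h1 (by linarith)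
    have h5 : L * w ^ 2 ≤ L ^ 3 * w ^ 2 := by
      apply mul_le_mul_of_nonneg_right _ (sq_nonneg _)
      calc L = L ^ 1 := (pow_one L).symm
        _ ≤ L ^ 3 := pow_le_pow_right₀ hL1 (by norm_num)
    have h6 : 0 ≤ L * S := by positivity
    have h7 : 0 ≤ L ^ 3 * w ^ 2 := by positivity
    linarith
  calc C * (∑ n, ‖b n‖ ^ 2) * (L * av (ee N T) η (idx T W) β + L ^ 3 * w ^ 2 + N)
      ≤ C * (∑ n, ‖b n‖ ^ 2) * (123 * (L * S + L ^ 3 * w ^ 2 + N)) :=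
        mul_le_mul_of_nonneg_left h3 (by positivity)
    _ = _ := by ring

/-- large values, first form -/
theorem con_large (N T : ℕ) (hN : 1 ≤ N) (η C L : ℝ) (hη : 0 < η) (hηN : η ≤ 1 / (3 * N)) (hC : 0 ≤ C)
    (hL1 : 1 ≤ L) (v : Fin (N + 1) → ℝ) (hv : Bas N T η C L v) (W : Finset ℤ) (hW : ∀ t ∈ W, |t| ≤ T)
    (b : Fin (N + 1) → ℂ) (V : ℝ) (hV : 0 ≤ V) (hVW : ∀ t ∈ W, V ≤ ‖DD N v b (t : ℝ)‖) :
    V ^ 2 * (W.card : ℝ) ≤ 8 * C * (∑ n, ‖b n‖ ^ 2) *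
      (L / η + L ^ 3 * (W.card : ℝ)) := by
  classical
  have hN1 : (1 : ℝ) ≤ N := by exact_mod_cast hN
  have hN0 : (0 : ℝ) < N := by linarith
  have hG0 : 0 ≤ ∑ n, ‖b n‖ ^ 2 := sum_nonneg fun _ _ => sq_nonneg _
  rcases W.eq_empty_or_nonempty with hWe | hWne
  · rw [hWe]
    simp only [card_empty, Nat.cast_zero, mul_zero, add_zero]
    positivity
  have hcard := idx_card T W hW
  have hne : (idx T W).Nonempty := by
    rw [← card_pos, hcard]
    exact card_pos.2 hWne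
  obtain ⟨β, hβ⟩ := hv (idx T W) b V hne hV (fun i hi => hVW _ ((mem_idx T W i).1 hi))
  have h1 := av_one N T hN η hη hηN (idx T W) β
  rw [hcard] at hβ h1
  have hw1 : (1 : ℝ) ≤ W.card := by exact_mod_cast card_pos.2 hWne
  obtain ⟨w, hw⟩ : ∃ w : ℝ, w = (W.card : ℝ) := ⟨_, rfl⟩
  rw [← hw] at h1 hβ hw1 ⊢
  have hNη : (N : ℝ) ≤ 1 / η := by
    rw [le_div_iff₀ hη]
    rw [le_div_iff₀ (by positivity)] at hηN
    nlinarith
  have h3 : L * av (ee N T) η (idx T W) β + L ^ 3 * w ^ 2 + N ≤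
      8 * w * (L / η + L ^ 3 * w) := by
    have h4 : L * av (ee N T) η (idx T W) β ≤ L * (7 * w / η) :=
      mul_le_mul_of_nonneg_left h1 (by linarith)
    have h5 : (N : ℝ) ≤ w * (L / η) := by
      calc (N : ℝ) ≤ 1 / η := hNη
        _ ≤ L / η := div_le_div_of_nonneg_right hL1 hη.le
        _ ≤ w * (L / η) := le_mul_of_one_le_left (by positivity) hw1
    have e : L * (7 * w / η) = 7 * (w * (L / η)) := by ring
    have h7 : 0 ≤ L ^ 3 * w ^ 2 := by positivity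
    nlinarith
  have h4 : w * (V ^ 2 * w) ≤ w * (8 * C * (∑ n, ‖b n‖ ^ 2) * (L / η + L ^ 3 * w)) := by
    calc w * (V ^ 2 * w) = V ^ 2 * w ^ 2 := by ring
      _ ≤ _ := hβ
      _ ≤ C * (∑ n, ‖b n‖ ^ 2) * (8 * w * (L / η + L ^ 3 * w)) :=
        mul_le_mul_of_nonneg_left h3 (by positivity)
      _ = _ := by ring
  exact le_of_mul_le_mul_left h4 (by linarith)

/-- large values, second form -/
theorem con_hm (N T : ℕ) (hN : 1 ≤ N) (η C c L : ℝ) (hη : 0 < η) (hη1 : η ≤ 1)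
    (hηN : 1 / (N : ℝ) ^ 2 ≤ η) (hC : 0 ≤ C) (hc : 1 ≤ c)
    (hT : 1 + Real.log (2 * T + 1) ≤ c * L) (hNL : 1 + Real.log N ≤ L)
    (v : Fin (N + 1) → ℝ) (hv : Bas N T η C L v) (W : Finset ℤ) (hW : ∀ t ∈ W, |t| ≤ T)
    (b : Fin (N + 1) → ℂ) (V : ℝ) (hV : 0 ≤ V) (hVW : ∀ t ∈ W, V ≤ ‖DD N v b (t : ℝ)‖) :
    V ^ 2 * (W.card : ℝ) ≤ 100 * c * C * (∑ n, ‖b n‖ ^ 2) *
      (L ^ 2 * N + L ^ 3 * Real.sqrt (1 / η) * (W.card : ℝ)) := by
  classical
  have hL1 : 1 ≤ L := by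
    have hN1' : (1 : ℝ) ≤ N := by exact_mod_cast hN
    linarith [Real.log_nonneg hN1']
  have hN1 : (1 : ℝ) ≤ N := by exact_mod_cast hN
  have hN0 : (0 : ℝ) < N := by linarith
  have hG0 : 0 ≤ ∑ n, ‖b n‖ ^ 2 := sum_nonneg fun _ _ => sq_nonneg _
  rcases W.eq_empty_or_nonempty with hWe | hWne
  · rw [hWe]
    simp only [card_empty, Nat.cast_zero, mul_zero, add_zero]
    positivity
  have hcard := idx_card T W hW
  have hne : (idx T W).Nonempty := by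
    rw [← card_pos, hcard]
    exact card_pos.2 hWne
  obtain ⟨β, hβ⟩ := hv (idx T W) b V hne hV (fun i hi => hVW _ ((mem_idx T W i).1 hi))
  have h1 := av_two N T hN η hη hηN (idx T W) β
  rw [hcard] at hβ h1
  have hw1 : (1 : ℝ) ≤ W.card := by exact_mod_cast card_pos.2 hWne
  obtain ⟨w, hw⟩ : ∃ w : ℝ, w = (W.card : ℝ) := ⟨_, rfl⟩
  rw [← hw] at h1 hβ hw1 ⊢
  obtain ⟨r, hr⟩ : ∃ r : ℝ, r = Real.sqrt (1 / η) := ⟨_, rfl⟩
  have hr1 : 1 ≤ r := by
    rw [hr]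
    apply Real.one_le_sqrt.2
    rw [le_div_iff₀ hη]
    linarith
  have hsq : Real.sqrt ((1 + Real.log N) / η) ≤ L * r := by
    have h0 : Real.sqrt ((1 + Real.log N) / η) ≤ Real.sqrt (L / η) :=
      Real.sqrt_le_sqrt (div_le_div_of_nonneg_right hNL hη.le)
    refine h0.trans ?_
    have e : L / η = L * (1 / η) := by ring
    rw [e, Real.sqrt_mul (by linarith), ← hr]
    apply mul_le_mul_of_nonneg_right _ (by linarith)
    apply Real.sqrt_le_iff.2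
    exact ⟨by linarith, by nlinarith⟩
  rw [← hr]
  have hcL : 1 ≤ c * L := one_le_mul_of_one_le_of_one_le hc hL1
  have h3 : L * av (ee N T) η (idx T W) β + L ^ 3 * w ^ 2 + N ≤
      100 * c * w * (L ^ 2 * N + L ^ 3 * r * w) := by
    have h4 : av (ee N T) η (idx T W) β ≤ w * (86 * N * (c * L) + w * (28 * (L * r))) := by
      refine h1.trans (mul_le_mul_of_nonneg_left ?_ (by linarith))
      have h5 : 84 * (N : ℝ) * (1 + Real.log (2 * T + 1)) ≤ 84 * N * (c * L) :=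
        mul_le_mul_of_nonneg_left hT (by positivity)
      have h6 : (N : ℝ) + 1 ≤ 2 * N * (c * L) := by nlinarith
      have h7 : w * (28 * Real.sqrt ((1 + Real.log N) / η)) ≤ w * (28 * (L * r)) :=
        mul_le_mul_of_nonneg_left (by linarith) (by linarith)
      linarith
    have h5 := mul_le_mul_of_nonneg_left h4 (by linarith : 0 ≤ L)
    have h6 : L * (w * (86 * N * (c * L) + w * (28 * (L * r)))) =
        86 * (c * w * (L ^ 2 * N)) + 28 * (L ^ 2 * r * w ^ 2) := by ring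
    rw [h6] at h5
    have hL23 : L ^ 2 ≤ L ^ 3 := pow_le_pow_right₀ hL1 (by norm_num)
    have h7 : L ^ 2 * r * w ^ 2 ≤ c * w * (L ^ 3 * r * w) := by
      have h8 : L ^ 2 * r * w ^ 2 ≤ L ^ 3 * r * w ^ 2 := by
        apply mul_le_mul_of_nonneg_right _ (sq_nonneg _)
        exact mul_le_mul_of_nonneg_right hL23 (by linarith)
      have h9 : L ^ 3 * r * w ^ 2 ≤ c * (L ^ 3 * r * w ^ 2) := le_mul_of_one_le_left (by positivity) hc
      calc L ^ 2 * r * w ^ 2 ≤ c * (L ^ 3 * r * w ^ 2) := h8.trans h9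
        _ = _ := by ring
    have h8 : L ^ 3 * w ^ 2 ≤ c * w * (L ^ 3 * r * w) := by
      have h9 : L ^ 3 * w ^ 2 ≤ c * r * (L ^ 3 * w ^ 2) :=
        le_mul_of_one_le_left (by positivity) (one_le_mul_of_one_le_of_one_le hc hr1)
      linarith
    have h9 : (N : ℝ) ≤ c * w * (L ^ 2 * N) := by
      have h10 : 1 ≤ c * w * L ^ 2 :=
        one_le_mul_of_one_le_of_one_le (one_le_mul_of_one_le_of_one_le hc hw1) (one_le_pow₀ hL1)
      have := le_mul_of_one_le_left hN0.le h10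
      linarith
    have h10 : 0 ≤ c * w * (L ^ 2 * N) := by positivity
    have h11 : 0 ≤ c * w * (L ^ 3 * r * w) := by positivity
    linarith
  have h4 : w * (V ^ 2 * w) ≤ w * (100 * c * C * (∑ n, ‖b n‖ ^ 2) * (L ^ 2 * N + L ^ 3 * r * w)) := by
    calc w * (V ^ 2 * w) = V ^ 2 * w ^ 2 := by ring
      _ ≤ _ := hβ
      _ ≤ C * (∑ n, ‖b n‖ ^ 2) * (100 * c * w * (L ^ 2 * N + L ^ 3 * r * w)) :=
        mul_le_mul_of_nonneg_left h3 (by positivity)
      _ = _ := by ring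
  exact le_of_mul_le_mul_left h4 (by linarith)

/-- the large sieve inequality -/
theorem con_sieve (N T : ℕ) (hN : 1 ≤ N) (η C L : ℝ) (hη : 0 < η) (hηN : η ≤ 1 / (3 * N)) (hC : 1 ≤ C)
    (hNL : 1 + Real.log N ≤ L) (v : Fin (N + 1) → ℝ) (hv : Bas N T η C L v) (W : Finset ℤ) (hW : ∀ t ∈ W, |t| ≤ T)
    (b : Fin (N + 1) → ℂ) :
    ∑ t ∈ W, ‖DD N v b (t : ℝ)‖ ^ 2 ≤ 300 * C * L ^ 4 * (1 / η + W.card) *
      ∑ n, ‖b n‖ ^ 2 := by
  classical
  have hN1 : (1 : ℝ) ≤ N := by exact_mod_cast hN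
  have hN0 : (0 : ℝ) < N := by linarith
  obtain ⟨G, hG⟩ : ∃ G, G = ∑ n, ‖b n‖ ^ 2 := ⟨_, rfl⟩
  have hG0 : 0 ≤ G := by rw [hG]; exact sum_nonneg fun _ _ => sq_nonneg _
  have hL1 : 1 ≤ L := by linarith [Real.log_nonneg hN1]
  rw [← hG]
  -- Cauchy-Schwarz
  have hmax0 : ∀ t : ℝ, ‖DD N v b t‖ ^ 2 ≤ (N + 1) * G := by
    intro t
    have h1 : ‖DD N v b t‖ ≤ ∑ n, ‖b n‖ * 1 := by
      unfold DD
      refine (norm_sum_le _ _).trans (le_of_eq ?_)
      apply sum_congr rfl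
      intro n _
      rw [norm_mul, Complex.norm_exp_ofReal_mul_I]
    have h2 := sum_mul_sq_le_sq_mul_sq univ (fun n => ‖b n‖) (fun _ : Fin (N + 1) => (1 : ℝ))
    have h3 : ‖DD N v b t‖ ^ 2 ≤ (∑ n, ‖b n‖ * 1) ^ 2 := pow_le_pow_left₀ (norm_nonneg _) h1 2
    refine h3.trans (h2.trans (le_of_eq ?_))
    rw [← hG]
    simp only [one_pow, sum_const, card_univ, Fintype.card_fin, nsmul_eq_mul, mul_one]
    push_cast
    ring
  rcases hG0.eq_or_lt with hGz | hGpos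
  · rw [← hGz, mul_zero]
    apply le_of_eq
    apply sum_eq_zero
    intro t _
    have h1 := hmax0 t
    rw [← hGz, mul_zero] at h1
    exact le_antisymm h1 (sq_nonneg _)
  obtain ⟨V0, hV0⟩ : ∃ V0, V0 = Real.sqrt G := ⟨_, rfl⟩
  have hV00 : 0 < V0 := by rw [hV0]; exact Real.sqrt_pos.2 hGpos
  have hV02 : V0 ^ 2 = G := by rw [hV0]; exact Real.sq_sqrt hG0
  obtain ⟨w, hw⟩ : ∃ w : ℝ, w = (W.card : ℝ) := ⟨_, rfl⟩
  have hw0 : 0 ≤ w := by rw [hw]; exact Nat.cast_nonneg _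
  rw [← hw]
  obtain ⟨A0, hA0⟩ : ∃ A0 : ℝ, A0 = 8 * C * G * (L / η + L ^ 3 * w) := ⟨_, rfl⟩
  have hlev : ∀ V, V0 ≤ V → V ^ 2 * ((W.filter (fun t : ℤ => V ≤ ‖DD N v b (t : ℝ)‖)).card : ℝ) ≤ A0 := by
    intro V hV
    have h1 := con_large N T hN η C L hη hηN (by linarith) hL1 v hv
      (W.filter (fun t : ℤ => V ≤ ‖DD N v b (t : ℝ)‖)) (fun t ht => hW t (mem_filter.1 ht).1) b V
      (hV00.le.trans hV) (fun t ht => (mem_filter.1 ht).2)
    refine h1.trans ?_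
    rw [hA0, ← hG]
    apply mul_le_mul_of_nonneg_left _ (by positivity)
    have h2 : ((W.filter (fun t : ℤ => V ≤ ‖DD N v b (t : ℝ)‖)).card : ℝ) ≤ w := by
      rw [hw]
      exact_mod_cast card_filter_le _ _
    have h3 : L ^ 3 * ((W.filter (fun t : ℤ => V ≤ ‖DD N v b (t : ℝ)‖)).card : ℝ) ≤ L ^ 3 * w :=
      mul_le_mul_of_nonneg_left h2 (by positivity)
    linarith
  set J : ℕ := Nat.log 2 N + 1 with hJ
  have hmax : ∀ t ∈ W, ‖DD N v b (t : ℝ)‖ ≤ 2 ^ J * V0 := by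
    intro t _
    apply le_of_sq_le_sq _ (by positivity)
    rw [mul_pow, hV02]
    refine (hmax0 t).trans ?_
    apply mul_le_mul_of_nonneg_right _ hG0
    have h1 : N < 2 ^ J := Nat.lt_pow_succ_log_self (by norm_num) _
    have h2 : (N : ℝ) + 1 ≤ 2 ^ J := by exact_mod_cast h1
    have h3 : (1 : ℝ) ≤ 2 ^ J := one_le_pow₀ (by norm_num)
    nlinarith
  have hdy := dyadic W (fun t : ℤ => ‖DD N v b (t : ℝ)‖) V0 A0 hV00 J hmax hlev
  have hsmall : ∑ t ∈ W.filter (fun t : ℤ => ¬ V0 ≤ ‖DD N v b (t : ℝ)‖), ‖DD N v b (t : ℝ)‖ ^ 2 ≤ w * G := by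
    calc ∑ t ∈ W.filter (fun t : ℤ => ¬ V0 ≤ ‖DD N v b (t : ℝ)‖), ‖DD N v b (t : ℝ)‖ ^ 2
        ≤ ∑ t ∈ W.filter (fun t : ℤ => ¬ V0 ≤ ‖DD N v b (t : ℝ)‖), G := by
          apply sum_le_sum
          intro t ht
          have h1 := (mem_filter.1 ht).2
          push Not at h1
          rw [← hV02]
          exact pow_le_pow_left₀ (norm_nonneg _) h1.le 2
      _ = ((W.filter (fun t : ℤ => ¬ V0 ≤ ‖DD N v b (t : ℝ)‖)).card : ℝ) * G := by
          rw [sum_const, nsmul_eq_mul]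
      _ ≤ w * G := by
          apply mul_le_mul_of_nonneg_right _ hG0
          rw [hw]
          exact_mod_cast card_filter_le _ _
  rw [← sum_filter_add_sum_filter_not W (fun t : ℤ => V0 ≤ ‖DD N v b (t : ℝ)‖)
    (fun t : ℤ => ‖DD N v b (t : ℝ)‖ ^ 2)]
  have hJ1 : (J : ℝ) + 1 ≤ 2 + 2 * Real.log N := by
    rw [hJ]
    push_cast
    have := log2_le' N hN
    linarith
  have hJ2 : (J : ℝ) + 1 ≤ 2 * L := by linarith
  have hA00 : 0 ≤ A0 := by rw [hA0]; positivity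
  have h1 : 4 * A0 * ((J : ℝ) + 1) ≤ 4 * A0 * (2 * L) :=
    mul_le_mul_of_nonneg_left hJ2 (by linarith)
  have h2 : 4 * A0 * (2 * L) ≤ 64 * C * L ^ 4 * (1 / η + w) * G := by
    rw [hA0]
    have h3 : L / η ≤ L ^ 3 * (1 / η) := by
      have h4 : L ≤ L ^ 3 := by
        calc L = L ^ 1 := (pow_one L).symm
          _ ≤ L ^ 3 := pow_le_pow_right₀ hL1 (by norm_num)
      have h5 : 0 ≤ 1 / η := by positivity
      calc L / η = L * (1 / η) := by ring
        _ ≤ L ^ 3 * (1 / η) := mul_le_mul_of_nonneg_right h4 h5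
    have h4 : L / η + L ^ 3 * w ≤ L ^ 3 * (1 / η + w) := by linarith
    have h5 := mul_le_mul_of_nonneg_left h4 (by positivity : 0 ≤ 64 * C * G * L)
    calc 4 * (8 * C * G * (L / η + L ^ 3 * w)) * (2 * L) = 64 * C * G * L * (L / η + L ^ 3 * w) := by ring
      _ ≤ 64 * C * G * L * (L ^ 3 * (1 / η + w)) := h5
      _ = _ := by ring
  have h3 : w * G ≤ C * L ^ 4 * (1 / η + w) * G := by
    apply mul_le_mul_of_nonneg_right _ hG0
    have h4 : 1 ≤ C * L ^ 4 := one_le_mul_of_one_le_of_one_le hC (one_le_pow₀ hL1)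
    have h5 : 0 ≤ 1 / η := by positivity
    nlinarith
  have h4 : 0 ≤ C * L ^ 4 * (1 / η + w) * G := by positivity
  linarith

end Pool.Agent.E8helper19.RP
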