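import Pool.Agent.E8helper19.RP.Good
import Pool.Agent.Y959.Rs.Maurey
import Pool.Agent.Y959.Her.Lq

set_option autoImplicit false

/-!
# Random perturbations: sums over good perturbations
-/

namespace Pool.Agent.E8helper19.RP

open MeasureTheory Finset Pool.Agent.Y959.Her Pool.Agent.Y959.Rs

variable {κ : Type} [Fintype κ] {ι : Type} [Fintype ι]

/-- the signed sum at the frequency `n` and the perturbation `x` -/
noncomputable def fs (e : ι → κ → ℝ → ℂ) (W : Finset ι) (b : ι → Fin 4) (n : κ) (x : ℝ) : ℂ :=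
  ∑ i ∈ W, phs (b i) * e i n x

/-- the mean square of the signed sum -/
noncomputable def av (e : ι → κ → ℝ → ℂ) (η : ℝ) (W : Finset ι) (b : ι → Fin 4) : ℝ :=
  ∑ n : κ, (∫ x in (0 : ℝ)..η, ‖fs e W b n x‖ ^ 2) / η

omit [Fintype κ] [Fintype ι] in
theorem fs_cont (e : ι → κ → ℝ → ℂ) (he : ∀ i n, Continuous (e i n)) (W : Finset ι)
    (b : ι → Fin 4) (n : κ) : Continuous (fs e W b n) := by
  unfold fs
  exact continuous_finsetSum _ fun l _ => continuous_const.mul (he _ _)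

omit [Fintype κ] [Fintype ι] in
theorem markov (e : ι → κ → ℝ → ℂ) (he : ∀ i n, Continuous (e i n)) (η : ℝ) (hη : 0 < η)
    (W : Finset ι) (b : ι → Fin 4) (n : κ) (s : ℝ) (hs : 0 < s) :
    s ^ 2 * (lm η).real {x | s ≤ ‖fs e W b n x‖} ≤ ∫ x in (0 : ℝ)..η, ‖fs e W b n x‖ ^ 2 := by
  have hc : Continuous fun x => ‖fs e W b n x‖ ^ 2 := ((fs_cont e he W b n).norm).pow 2
  have hI : Integrable (fun x => ‖fs e W b n x‖ ^ 2) (lm η) := by
    unfold lm
    exact (hc.continuousOn).integrableOn_Icc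
  have h1 := mul_meas_ge_le_integral_of_nonneg (μ := lm η) (f := fun x => ‖fs e W b n x‖ ^ 2)
    (Filter.Eventually.of_forall fun x => sq_nonneg _) hI (s ^ 2)
  have h2 : {x | s ^ 2 ≤ ‖fs e W b n x‖ ^ 2} = {x | s ≤ ‖fs e W b n x‖} := by
    ext x
    rw [Set.mem_ofPred_eq, Set.mem_ofPred_eq]
    exact pow_le_pow_iff_left₀ hs.le (norm_nonneg _) (by norm_num)
  rw [h2] at h1
  refine h1.trans (le_of_eq ?_)
  rw [intervalIntegral.integral_of_le hη.le, ← integral_Icc_eq_integral_Ioc]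
  rfl

open Classical in
/-- one level -/
theorem level (e : ι → κ → ℝ → ℂ) (he : ∀ i n, Continuous (e i n))
    (he1 : ∀ i n x, ‖e i n x‖ ≤ 1) (η : ℝ) (hη : 0 < η) (hκ : 1 ≤ Fintype.card κ)
    (G : Finset ℝ) (hG : ∀ x, 0 ≤ x → x ≤ η → ∃ y ∈ G, ∀ i n,
      ‖e i n x - e i n y‖ ≤ 1 / (16 * Fintype.card ι))
    (Lam : ℝ) (hLam : 1 ≤ Lam) (v : κ → ℝ) (hv : ∀ n, 0 ≤ v n ∧ v n ≤ η)
    (hgood : GoodV e η Lam v) (W : Finset ι) (hW : W.Nonempty) (b : ι → Fin 4)
    (u : ℝ) (hu : 1 ≤ u) :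
    u ^ 2 * ((univ.filter (fun n => u ≤ ‖fs e W b n (v n)‖)).card : ℝ) ≤
      56 * av e η W b + 1088 * (W.card : ℝ) ^ 2 * Real.log (4 * (Fintype.card κ * G.card)) * Lam +
        u ^ 2 * (Lam + 1) := by
  have hwc : (0 : ℝ) < W.card := by exact_mod_cast card_pos.2 hW
  have hwi : (W.card : ℝ) ≤ Fintype.card ι := by exact_mod_cast card_le_univ W
  have hιc : (0 : ℝ) < Fintype.card ι := by linarith
  have hκc : (1 : ℝ) ≤ Fintype.card κ := by exact_mod_cast hκ
  obtain ⟨y0, hy0, _⟩ := hG 0 le_rfl hη.le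
  have hGc : (1 : ℝ) ≤ G.card := by exact_mod_cast card_pos.2 ⟨y0, hy0⟩
  have hu0 : 0 < u := by linarith
  have hprod : (1 : ℝ) ≤ Fintype.card κ * G.card := one_le_mul_of_one_le_of_one_le hκc hGc
  have hℓ0 : 0 < Real.log (4 * (Fintype.card κ * G.card)) := Real.log_pos (by linarith)
  obtain ⟨ℓ, hℓd⟩ : ∃ ℓ, ℓ = Real.log (4 * (Fintype.card κ * G.card)) := ⟨_, rfl⟩
  rw [← hℓd] at hℓ0 ⊢
  -- the length of the sample
  obtain ⟨m, hmd⟩ : ∃ m : ℕ, m = ⌈1088 * (W.card : ℝ) ^ 2 * ℓ / u ^ 2⌉₊ := ⟨_, rfl⟩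
  have hm1 : 1 ≤ m := by
    rw [hmd]
    exact Nat.one_le_ceil_iff.2 (by positivity)
  have hm0 : (0 : ℝ) < m := by exact_mod_cast hm1
  have hmge : 1088 * (W.card : ℝ) ^ 2 * ℓ ≤ m * u ^ 2 := by
    have h1 : 1088 * (W.card : ℝ) ^ 2 * ℓ / u ^ 2 ≤ m := by rw [hmd]; exact Nat.le_ceil _
    rwa [div_le_iff₀ (by positivity)] at h1
  have hmle : m * u ^ 2 ≤ 1088 * (W.card : ℝ) ^ 2 * ℓ + u ^ 2 := by
    have h1 : (m : ℝ) < 1088 * (W.card : ℝ) ^ 2 * ℓ / u ^ 2 + 1 := by
      rw [hmd]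
      exact Nat.ceil_lt_add_one (by positivity)
    have h2 := mul_le_mul_of_nonneg_right h1.le (sq_nonneg u)
    have h3 : (1088 * (W.card : ℝ) ^ 2 * ℓ / u ^ 2 + 1) * u ^ 2 =
        1088 * (W.card : ℝ) ^ 2 * ℓ + u ^ 2 := by
      rw [add_mul, div_mul_cancel₀ _ (by positivity), one_mul]
    linarith
  have hav : 0 ≤ av e η W b := by
    unfold av
    apply sum_nonneg
    intro n _
    apply div_nonneg _ hη.le
    exact intervalIntegral.integral_nonneg hη.le fun _ _ => sq_nonneg _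
  have hcu : ((univ.filter (fun n => u ≤ ‖fs e W b n (v n)‖)).card : ℝ) ≤ Fintype.card κ := by
    exact_mod_cast card_le_univ _
  have hLm : (0 : ℝ) ≤ m * Lam := by positivity
  -- the number is at most `56 av / u ^ 2 + m Lam + 1`
  suffices hs : u ^ 2 * ((univ.filter (fun n => u ≤ ‖fs e W b n (v n)‖)).card : ℝ) ≤
      56 * av e η W b + u ^ 2 * (m * Lam + 1) by
    have h1 : u ^ 2 * (m * Lam) ≤ (1088 * (W.card : ℝ) ^ 2 * ℓ + u ^ 2) * Lam := by
      have := mul_le_mul_of_nonneg_right hmle (by linarith : (0 : ℝ) ≤ Lam)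
      linarith
    nlinarith
  rcases lt_or_ge (Fintype.card κ) m with hmk | hmk
  · have h1 : ((Fintype.card κ : ℕ) : ℝ) ≤ m := by exact_mod_cast hmk.le
    have h2 : (m : ℝ) ≤ m * Lam := by nlinarith
    have h3 : ((univ.filter (fun n => u ≤ ‖fs e W b n (v n)‖)).card : ℝ) ≤ m * Lam + 1 := by
      linarith
    have h4 := mul_le_mul_of_nonneg_left h3 (sq_nonneg u)
    linarith
  -- the sample
  have hFne : ((univ : Finset κ) ×ˢ G).Nonempty := by
    apply Finset.card_pos.1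
    rw [card_product, card_univ]
    exact Nat.mul_pos (by omega) (card_pos.2 ⟨y0, hy0⟩)
  obtain ⟨s, hs, hs2⟩ := maurey W hW ((univ : Finset κ) ×ˢ G) hFne
    (fun i p => phs (b i) * e i p.1 p.2) (fun i _ p hp => by
      rw [norm_mul, (phs_isPh _).norm, one_mul]; exact he1 i p.1 p.2) m hm1
  have hcard : (((univ : Finset κ) ×ˢ G).card : ℝ) = Fintype.card κ * G.card := by
    rw [card_product, card_univ]
    push_cast
    rfl
  rw [hcard, ← hℓd] at hs2
  obtain ⟨c, hc⟩ : ∃ c : Fin m → ι × Fin 4, c = fun l : Fin m => (s (l : ℕ), b (s (l : ℕ))) :=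
    ⟨_, rfl⟩
  have hg : ∀ n x, gs e c n x = ∑ l ∈ range m, phs (b (s l)) * e (s l) n x := by
    intro n x
    unfold gs
    rw [hc, ← Fin.sum_univ_eq_sum_range (fun l => phs (b (s l)) * e (s l) n x)]
  obtain ⟨θ, hθ⟩ : ∃ θ : ℝ, θ = (m : ℝ) / W.card := ⟨_, rfl⟩
  have hθ0 : 0 < θ := by rw [hθ]; positivity
  have hθu : 0 < θ * u := by positivity
  have hθ1 : (Fintype.card ι : ℝ) * θ ≥ 1 := by
    rw [hθ, ge_iff_le, mul_div_assoc', le_div_iff₀ hwc, one_mul]
    have : (1 : ℝ) ≤ m := by exact_mod_cast hm1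
    nlinarith
  -- at the points of the grid
  have happ0 : ∀ n, ∀ y ∈ G, ‖gs e c n y - (θ : ℂ) * fs e W b n y‖ ≤ θ * u / 8 := by
    intro n y hy
    have h0 := hs2 (n, y) (mem_product.2 ⟨mem_univ _, hy⟩)
    have h1 : gs e c n y - (θ : ℂ) * fs e W b n y = ∑ l ∈ range m, phs (b (s l)) * e (s l) n y -
        ((m : ℝ) / W.card : ℝ) * ∑ i ∈ W, phs (b i) * e i n y := by
      rw [hg, hθ]
      rfl
    rw [h1]
    refine h0.trans ?_
    apply Real.sqrt_le_iff.2
    refine ⟨by positivity, ?_⟩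
    have h1 : (θ * u / 8) ^ 2 = (m * u ^ 2) * m / (64 * (W.card : ℝ) ^ 2) := by
      rw [hθ]
      field_simp
      ring
    rw [h1, le_div_iff₀ (by positivity)]
    nlinarith [mul_le_mul_of_nonneg_right hmge hm0.le]
  -- everywhere
  have happ : ∀ n x, 0 ≤ x → x ≤ η → ‖gs e c n x - (θ : ℂ) * fs e W b n x‖ ≤ θ * u / 4 := by
    intro n x hx0 hx1
    obtain ⟨y, hy, hxy⟩ := hG x hx0 hx1
    have h1 : ‖gs e c n x - gs e c n y‖ ≤ m * (1 / (16 * Fintype.card ι)) := by
      unfold gs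
      rw [← sum_sub_distrib]
      refine (norm_sum_le _ _).trans ?_
      calc ∑ l, ‖phs (c l).2 * e (c l).1 n x - phs (c l).2 * e (c l).1 n y‖
          ≤ ∑ l : Fin m, (1 / (16 * (Fintype.card ι : ℝ))) := by
            apply sum_le_sum
            intro l _
            rw [← mul_sub, norm_mul, (phs_isPh _).norm, one_mul]
            exact hxy _ _
        _ = _ := by rw [sum_const, card_univ, Fintype.card_fin, nsmul_eq_mul]
    have h2 : ‖fs e W b n x - fs e W b n y‖ ≤ W.card * (1 / (16 * Fintype.card ι)) := by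
      unfold fs
      rw [← sum_sub_distrib]
      refine (norm_sum_le _ _).trans ?_
      calc ∑ i ∈ W, ‖phs (b i) * e i n x - phs (b i) * e i n y‖
          ≤ ∑ i ∈ W, (1 / (16 * (Fintype.card ι : ℝ))) := by
            apply sum_le_sum
            intro l _
            rw [← mul_sub, norm_mul, (phs_isPh _).norm, one_mul]
            exact hxy _ _
        _ = _ := by rw [sum_const, nsmul_eq_mul]
    have h3 : (m : ℝ) * (1 / (16 * Fintype.card ι)) ≤ θ * u / 16 := by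
      have h4 : (m : ℝ) = θ * W.card := by rw [hθ]; field_simp
      rw [h4]
      have h5 : (W.card : ℝ) * (1 / (16 * Fintype.card ι)) ≤ 1 / 16 := by
        rw [mul_one_div, div_le_div_iff₀ (by positivity) (by norm_num)]
        linarith
      calc θ * W.card * (1 / (16 * Fintype.card ι)) = θ * (W.card * (1 / (16 * Fintype.card ι))) := by
            ring
        _ ≤ θ * (1 / 16) := mul_le_mul_of_nonneg_left h5 hθ0.le
        _ ≤ θ * u / 16 := by nlinarith
    have h4 : θ * (W.card * (1 / (16 * Fintype.card ι))) ≤ θ * u / 16 := by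
      refine le_trans (le_of_eq ?_) h3
      have h4 : (m : ℝ) = θ * W.card := by rw [hθ]; field_simp
      rw [h4]
      ring
    have e1 : gs e c n x - (θ : ℂ) * fs e W b n x = (gs e c n x - gs e c n y) +
        (gs e c n y - (θ : ℂ) * fs e W b n y) - (θ : ℂ) * (fs e W b n x - fs e W b n y) := by ring
    rw [e1]
    refine (norm_sub_le _ _).trans ?_
    have h5 := norm_add_le (gs e c n x - gs e c n y) (gs e c n y - (θ : ℂ) * fs e W b n y)
    have h6 := happ0 n y hy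
    have h7 : ‖(θ : ℂ) * (fs e W b n x - fs e W b n y)‖ ≤ θ * u / 16 := by
      rw [norm_mul, Complex.norm_real, Real.norm_of_nonneg hθ0.le]
      exact (mul_le_mul_of_nonneg_left h2 hθ0.le).trans h4
    linarith
  have hθf : ∀ n x, ‖(θ : ℂ) * fs e W b n x‖ = θ * ‖fs e W b n x‖ := by
    intro n x
    rw [norm_mul, Complex.norm_real, Real.norm_of_nonneg hθ0.le]
  -- the level of the code
  obtain ⟨s0, hs0⟩ : ∃ s0 : ℝ, s0 = 8 * (Fintype.card ι : ℝ) := ⟨_, rfl⟩
  have hs00 : 0 < s0 := by rw [hs0]; positivity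
  obtain ⟨j, hj⟩ : ∃ j : ℕ, j = ⌊3 / 4 * (θ * u) * s0⌋₊ := ⟨_, rfl⟩
  have hj1 : (j : ℝ) / s0 ≤ 3 / 4 * (θ * u) := by
    rw [div_le_iff₀ hs00, hj]
    exact Nat.floor_le (by positivity)
  have hj2 : 5 / 8 * (θ * u) ≤ (j : ℝ) / s0 := by
    rw [le_div_iff₀ hs00]
    have h1 : 3 / 4 * (θ * u) * s0 < j + 1 := by
      rw [hj]
      exact Nat.lt_floor_add_one _
    have h2 : 1 ≤ 1 / 8 * (θ * u) * s0 := by
      rw [hs0]
      have h3 : Fintype.card ι * θ ≤ Fintype.card ι * θ * u :=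
        le_mul_of_one_le_right (by positivity) hu
      linarith
    linarith
  have hsub : (univ.filter (fun n => u ≤ ‖fs e W b n (v n)‖)) ⊆
      (univ.filter (fun n => (j : ℝ) / s0 ≤ ‖gs e c n (v n)‖)) := by
    intro n hn
    rw [mem_filter] at hn ⊢
    refine ⟨hn.1, hj1.trans ?_⟩
    have h1 := happ n (v n) (hv n).1 (hv n).2
    have h2 : θ * u ≤ ‖(θ : ℂ) * fs e W b n (v n)‖ := by
      rw [hθf]
      exact mul_le_mul_of_nonneg_left hn.2 hθ0.le
    have h3 := norm_sub_norm_le ((θ : ℂ) * fs e W b n (v n)) (gs e c n (v n))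
    rw [norm_sub_rev] at h3
    linarith
  rcases lt_or_ge (8 * Fintype.card ι * Fintype.card κ) j with hjJ | hjJ
  · -- then there is no such frequency
    have h1 : (univ.filter (fun n => (j : ℝ) / s0 ≤ ‖gs e c n (v n)‖)) = ∅ := by
      rw [filter_eq_empty_iff]
      intro n _
      push Not
      have h2 : ‖gs e c n (v n)‖ ≤ m := by
        unfold gs
        refine (norm_sum_le _ _).trans ?_
        calc ∑ l, ‖phs (c l).2 * e (c l).1 n (v n)‖ ≤ ∑ l : Fin m, (1 : ℝ) := by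
              apply sum_le_sum
              intro l _
              rw [norm_mul, (phs_isPh _).norm, one_mul]
              exact he1 _ _ _
          _ = m := by simp
      have h3 : (m : ℝ) ≤ Fintype.card κ := by exact_mod_cast hmk
      have h4 : ((8 * Fintype.card ι * Fintype.card κ : ℕ) : ℝ) < j := by exact_mod_cast hjJ
      have h5 : (Fintype.card κ : ℝ) < j / s0 := by
        rw [lt_div_iff₀ hs00, hs0]
        push_cast at h4
        linarith
      linarith
    have h2 : (univ.filter (fun n => u ≤ ‖fs e W b n (v n)‖)) = ∅ := by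
      rw [← subset_empty, ← h1]
      exact hsub
    rw [h2]
    simp only [card_empty, Nat.cast_zero, mul_zero]
    positivity
  have hG2 := hgood m hm1 hmk c j hjJ
  rw [← hs0] at hG2
  -- the mean number
  have hmn : u ^ 2 * mn e η c ((j : ℝ) / s0) ≤ 8 * av e η W b := by
    unfold mn av
    rw [mul_sum, mul_sum]
    apply sum_le_sum
    intro n _
    have h1 : (lm η).real {x | (j : ℝ) / s0 ≤ ‖gs e c n x‖} ≤
        (lm η).real {x | 3 / 8 * u ≤ ‖fs e W b n x‖} := by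
      have h2 : (lm η).real {x | (j : ℝ) / s0 ≤ ‖gs e c n x‖} =
          (lm η).real ({x | (j : ℝ) / s0 ≤ ‖gs e c n x‖} ∩ Set.Icc 0 η) := by
        unfold lm
        rw [measureReal_restrict_apply (gs_meas e he c n _),
          measureReal_restrict_apply ((gs_meas e he c n _).inter measurableSet_Icc),
          Set.inter_assoc, Set.inter_self]
      rw [h2]
      apply measureReal_mono _ (by finiteness)
      rintro x ⟨hx, hx0, hx1⟩
      rw [Set.mem_ofPred_eq] at hx ⊢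
      have h3 := happ n x hx0 hx1
      have h4 := norm_sub_norm_le (gs e c n x) ((θ : ℂ) * fs e W b n x)
      rw [hθf] at h4
      have h5 : θ * (3 / 8 * u) ≤ θ * ‖fs e W b n x‖ := by linarith
      exact le_of_mul_le_mul_left h5 hθ0
    have h2 := markov e he η hη W b n (3 / 8 * u) (by positivity)
    have h3 : u ^ 2 * (lm η).real {x | (j : ℝ) / s0 ≤ ‖gs e c n x‖} ≤
        8 * ∫ x in (0 : ℝ)..η, ‖fs e W b n x‖ ^ 2 := by
      have h4 := mul_le_mul_of_nonneg_left h1 (sq_nonneg u)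
      have h5 : 0 ≤ u ^ 2 * (lm η).real {x | 3 / 8 * u ≤ ‖fs e W b n x‖} :=
        mul_nonneg (sq_nonneg _) measureReal_nonneg
      have h6 : (3 / 8 * u) ^ 2 * (lm η).real {x | 3 / 8 * u ≤ ‖fs e W b n x‖} =
          9 / 64 * (u ^ 2 * (lm η).real {x | 3 / 8 * u ≤ ‖fs e W b n x‖}) := by ring
      rw [h6] at h2
      linarith
    calc u ^ 2 * ((lm η).real {x | (j : ℝ) / s0 ≤ ‖gs e c n x‖} / η)
        = (u ^ 2 * (lm η).real {x | (j : ℝ) / s0 ≤ ‖gs e c n x‖}) / η := by ring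
      _ ≤ (8 * ∫ x in (0 : ℝ)..η, ‖fs e W b n x‖ ^ 2) / η :=
          div_le_div_of_nonneg_right h3 hη.le
      _ = _ := by ring
  have h1 : ((univ.filter (fun n => u ≤ ‖fs e W b n (v n)‖)).card : ℝ) ≤
      7 * mn e η c ((j : ℝ) / s0) + m * Lam + 1 := by
    refine le_trans ?_ hG2
    exact_mod_cast card_le_card hsub
  have h2 := mul_le_mul_of_nonneg_left h1 (sq_nonneg u)
  nlinarith

open Classical in
/-- **The mean square over a good perturbation.** -/
theorem main_det (e : ι → κ → ℝ → ℂ) (he : ∀ i n, Continuous (e i n))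
    (he1 : ∀ i n x, ‖e i n x‖ ≤ 1) (η : ℝ) (hη : 0 < η) (hκ : 1 ≤ Fintype.card κ)
    (G : Finset ℝ) (hG : ∀ x, 0 ≤ x → x ≤ η → ∃ y ∈ G, ∀ i n,
      ‖e i n x - e i n y‖ ≤ 1 / (16 * Fintype.card ι))
    (Lam : ℝ) (hLam : 1 ≤ Lam) (v : κ → ℝ) (hv : ∀ n, 0 ≤ v n ∧ v n ≤ η)
    (hgood : GoodV e η Lam v) (W : Finset ι) (hW : W.Nonempty) (b : ι → Fin 4) :
    ∑ n, ‖fs e W b n (v n)‖ ^ 2 ≤
      4 * (56 * av e η W b +
        1090 * (W.card : ℝ) ^ 2 * Real.log (4 * (Fintype.card κ * G.card)) * Lam) *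
        ((Nat.log 2 W.card : ℝ) + 2) + Fintype.card κ := by
  have hwc : (1 : ℝ) ≤ W.card := by exact_mod_cast card_pos.2 hW
  have hκc : (1 : ℝ) ≤ Fintype.card κ := by exact_mod_cast hκ
  obtain ⟨y0, hy0, _⟩ := hG 0 le_rfl hη.le
  have hGc : (1 : ℝ) ≤ G.card := by exact_mod_cast card_pos.2 ⟨y0, hy0⟩
  have hprod : (1 : ℝ) ≤ Fintype.card κ * G.card := one_le_mul_of_one_le_of_one_le hκc hGc
  have hℓ1 : 1 ≤ Real.log (4 * (Fintype.card κ * G.card)) := by
    rw [Real.le_log_iff_exp_le (by linarith)]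
    have := Real.exp_one_lt_d9
    linarith
  have hfw : ∀ n, ‖fs e W b n (v n)‖ ≤ W.card := by
    intro n
    unfold fs
    refine (norm_sum_le _ _).trans ?_
    calc ∑ i ∈ W, ‖phs (b i) * e i n (v n)‖ ≤ ∑ i ∈ W, (1 : ℝ) := by
          apply sum_le_sum
          intro i _
          rw [norm_mul, (phs_isPh _).norm, one_mul]
          exact he1 i n _
      _ = W.card := by simp
  have hav : 0 ≤ av e η W b := by
    unfold av
    apply sum_nonneg
    intro n _
    apply div_nonneg _ hη.le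
    exact intervalIntegral.integral_nonneg hη.le fun _ _ => sq_nonneg _
  obtain ⟨A0, hA0⟩ : ∃ A0 : ℝ, A0 = 56 * av e η W b +
        1090 * (W.card : ℝ) ^ 2 * Real.log (4 * (Fintype.card κ * G.card)) * Lam := ⟨_, rfl⟩
  rw [← hA0]
  have hww : 0 ≤ (W.card : ℝ) ^ 2 * Real.log (4 * (Fintype.card κ * G.card)) * Lam :=
    mul_nonneg (mul_nonneg (sq_nonneg _) (by linarith)) (by linarith)
  have hA00 : 0 ≤ A0 := by
    rw [hA0]
    linarith
  have hlev : ∀ u, 1 ≤ u → u ^ 2 * (((univ : Finset κ).filter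
      (fun n => u ≤ ‖fs e W b n (v n)‖)).card : ℝ) ≤ A0 := by
    intro u hu
    rcases le_or_gt u W.card with h1 | h1
    · have h2 := level e he he1 η hη hκ G hG Lam hLam v hv hgood W hW b u hu
      refine h2.trans ?_
      rw [hA0]
      have h4 : u ^ 2 ≤ (W.card : ℝ) ^ 2 := pow_le_pow_left₀ (by linarith) h1 2
      have h3 : u ^ 2 * (Lam + 1) ≤ (W.card : ℝ) ^ 2 * Real.log (4 * (Fintype.card κ * G.card)) *
          (2 * Lam) := by
        apply mul_le_mul _ (by linarith) (by linarith) (mul_nonneg (sq_nonneg _) (by linarith))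
        nlinarith [sq_nonneg (W.card : ℝ)]
      nlinarith
    · have h2 : (univ : Finset κ).filter (fun n => u ≤ ‖fs e W b n (v n)‖) = ∅ := by
        rw [filter_eq_empty_iff]
        intro n _
        push Not
        exact lt_of_le_of_lt (hfw n) h1
      rw [h2]
      simpa using hA00
  have hmax : ∀ n ∈ (univ : Finset κ), ‖fs e W b n (v n)‖ ≤ 2 ^ (Nat.log 2 W.card + 1) * 1 := by
    intro n _
    rw [mul_one]
    refine (hfw n).trans ?_
    have h1 : W.card < 2 ^ (Nat.log 2 W.card + 1) := Nat.lt_pow_succ_log_self (by norm_num) _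
    exact_mod_cast h1.le
  have hdy := dyadic univ (fun n => ‖fs e W b n (v n)‖) 1 A0 one_pos (Nat.log 2 W.card + 1) hmax hlev
  have hsmall : ∑ n ∈ univ.filter (fun n => ¬ (1 : ℝ) ≤ ‖fs e W b n (v n)‖),
      ‖fs e W b n (v n)‖ ^ 2 ≤ Fintype.card κ := by
    calc ∑ n ∈ univ.filter (fun n => ¬ (1 : ℝ) ≤ ‖fs e W b n (v n)‖), ‖fs e W b n (v n)‖ ^ 2
        ≤ ∑ n ∈ univ.filter (fun n => ¬ (1 : ℝ) ≤ ‖fs e W b n (v n)‖), (1 : ℝ) := by
          apply sum_le_sum
          intro n hn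
          have h1 := (mem_filter.1 hn).2
          push Not at h1
          exact pow_le_one₀ (norm_nonneg _) h1.le
      _ = ((univ.filter (fun n => ¬ (1 : ℝ) ≤ ‖fs e W b n (v n)‖)).card : ℝ) := by simp
      _ ≤ Fintype.card κ := by exact_mod_cast card_le_univ _
  rw [← sum_filter_add_sum_filter_not univ (fun n => (1 : ℝ) ≤ ‖fs e W b n (v n)‖)
    (fun n => ‖fs e W b n (v n)‖ ^ 2)]
  refine add_le_add (hdy.trans (le_of_eq ?_)) hsmall
  push_cast
  ring

end Pool.Agent.E8helper19.RP
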