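import Pool.Agent.E8helper19.RP.Cl

set_option autoImplicit false

/-!
# Random perturbations of the frequencies `log n`: large values
-/

namespace Pool.Agent.E8helper19.RP

open MeasureTheory Finset Pool.Agent.Y959.Her Pool.Agent.Y959.Rs Pool.Agent.TH705.DL

/-- `∑_{N ≤ m ≤ 2N} b_m e^{i t (log m + v_m)}`, `m = N + n` -/
noncomputable def DD (N : ℕ) (v : Fin (N + 1) → ℝ) (b : Fin (N + 1) → ℂ) (t : ℝ) : ℂ :=
  ∑ n : Fin (N + 1), b n * Complex.exp (((t * (Real.log ((N : ℝ) + (n : ℕ)) + v n) : ℝ) : ℂ) * Complex.I)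

theorem log2_le' (R : ℕ) (hR : 1 ≤ R) : (Nat.log 2 R : ℝ) ≤ 2 * Real.log R := by
  have h1 : (2 : ℝ) ^ (Nat.log 2 R) ≤ R := by exact_mod_cast Nat.pow_log_le_self 2 (by omega)
  have h2 := Real.log_le_log (by positivity) h1
  rw [Real.log_pow] at h2
  have h3 : (1 : ℝ) / 2 ≤ Real.log 2 := by have := Real.log_two_gt_d9; linarith
  have h4 : (0 : ℝ) ≤ (Nat.log 2 R : ℝ) := Nat.cast_nonneg _
  nlinarith

/-- the logarithmic factor -/
noncomputable def LL (N T : ℕ) (δ : ℝ) : ℝ := 1 + Real.log (N * T / δ)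

/-- the parameters -/
theorem par (N T : ℕ) (hN : 1 ≤ N) (hT : 1 ≤ T) (δ : ℝ) (hδ : 0 < δ) (hδ1 : δ ≤ 1) :
    1 ≤ Real.log (100 * ((2 * T + 1 : ℕ) : ℝ) ^ 2 * ((N + 1 : ℕ) : ℝ) ^ 2 / δ) ∧
    Real.log (100 * ((2 * T + 1 : ℕ) : ℝ) ^ 2 * ((N + 1 : ℕ) : ℝ) ^ 2 / δ) ≤ 4000 * LL N T δ ∧
    (∀ g : ℝ, 1 ≤ g → g ≤ 16 * (2 * T + 1) * T + 2 →
      0 ≤ Real.log (4 * (((N + 1 : ℕ) : ℝ) * g)) ∧
      Real.log (4 * (((N + 1 : ℕ) : ℝ) * g)) ≤ 4000 * LL N T δ) ∧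
    (∀ R : ℕ, 1 ≤ R → R ≤ 2 * T + 1 → (Nat.log 2 R : ℝ) + 2 ≤ 4000 * LL N T δ) ∧
    1 + Real.log (2 * T + 1) ≤ 4000 * LL N T δ ∧ 1 + Real.log N ≤ LL N T δ := by
  have hN1 : (1 : ℝ) ≤ N := by exact_mod_cast hN
  have hN0 : (0 : ℝ) < N := by linarith
  have hT1 : (1 : ℝ) ≤ T := by exact_mod_cast hT
  have hT0 : (0 : ℝ) < T := by linarith
  have hl : 0 ≤ Real.log N := Real.log_nonneg hN1
  have hlT : 0 ≤ Real.log T := Real.log_nonneg hT1
  have hlδ : 0 ≤ Real.log (1 / δ) := Real.log_nonneg (by rw [le_div_iff₀ hδ]; linarith)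
  have hLL : LL N T δ = 1 + (Real.log N + Real.log T + Real.log (1 / δ)) := by
    unfold LL
    rw [← Real.log_mul hN0.ne' hT0.ne', ← Real.log_mul (by positivity) (by positivity)]
    congr 2
    ring
  have ha : ((2 * T + 1 : ℕ) : ℝ) ≤ 3 * T := by push_cast; linarith
  have ha1 : (1 : ℝ) ≤ ((2 * T + 1 : ℕ) : ℝ) := by push_cast; linarith
  have hk : ((N + 1 : ℕ) : ℝ) ≤ 2 * N := by push_cast; linarith
  have hk1 : (1 : ℝ) ≤ ((N + 1 : ℕ) : ℝ) := by push_cast; linarith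
  have hlogc : ∀ x y : ℝ, 0 < x → 0 < y → Real.log (x * y) ≤ x + Real.log y := by
    intro x y hx hy
    rw [Real.log_mul hx.ne' hy.ne']
    have := Real.log_le_sub_one_of_pos hx
    linarith
  rw [hLL]
  refine ⟨?_, ?_, ?_, ?_, ?_, ?_⟩
  · have h2 : (100 : ℝ) ≤ 100 * ((2 * T + 1 : ℕ) : ℝ) ^ 2 * ((N + 1 : ℕ) : ℝ) ^ 2 / δ := by
      rw [le_div_iff₀ hδ]
      have h3 : (1 : ℝ) ≤ ((2 * T + 1 : ℕ) : ℝ) ^ 2 * ((N + 1 : ℕ) : ℝ) ^ 2 :=
        one_le_mul_of_one_le_of_one_le (one_le_pow₀ ha1) (one_le_pow₀ hk1)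
      nlinarith
    rw [Real.le_log_iff_exp_le (by linarith)]
    have := Real.exp_one_lt_d9
    linarith
  · have h1 : 100 * ((2 * T + 1 : ℕ) : ℝ) ^ 2 * ((N + 1 : ℕ) : ℝ) ^ 2 / δ ≤
        3600 * ((N : ℝ) ^ 2 * (T : ℝ) ^ 2 * (1 / δ)) := by
      have h2 : ((2 * T + 1 : ℕ) : ℝ) ^ 2 ≤ (3 * (T : ℝ)) ^ 2 := pow_le_pow_left₀ (by linarith) ha 2
      have h3 : ((N + 1 : ℕ) : ℝ) ^ 2 ≤ (2 * (N : ℝ)) ^ 2 := pow_le_pow_left₀ (by linarith) hk 2
      have h4 := mul_le_mul h2 h3 (by positivity) (by positivity)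
      have e : 3600 * ((N : ℝ) ^ 2 * (T : ℝ) ^ 2 * (1 / δ)) =
          100 * ((3 * (T : ℝ)) ^ 2 * (2 * (N : ℝ)) ^ 2) / δ := by ring
      rw [e]
      apply div_le_div_of_nonneg_right _ hδ.le
      linarith
    refine (Real.log_le_log (by positivity) h1).trans ?_
    refine (hlogc _ _ (by norm_num) (by positivity)).trans ?_
    rw [Real.log_mul (by positivity) (by positivity), Real.log_mul (by positivity) (by positivity),
      Real.log_pow, Real.log_pow]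
    push_cast
    linarith
  · intro g hg1 hg2
    have h0 : (1 : ℝ) ≤ ((N + 1 : ℕ) : ℝ) * g := one_le_mul_of_one_le_of_one_le hk1 hg1
    refine ⟨Real.log_nonneg (by linarith), ?_⟩
    have h1 : g ≤ 50 * (T : ℝ) ^ 2 := by nlinarith
    have h2 : 4 * (((N + 1 : ℕ) : ℝ) * g) ≤ 400 * ((N : ℝ) * (T : ℝ) ^ 2) := by
      have h3 := mul_le_mul hk h1 (by linarith) (by linarith)
      linarith
    refine (Real.log_le_log (by linarith) h2).trans ?_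
    refine (hlogc _ _ (by norm_num) (by positivity)).trans ?_
    rw [Real.log_mul (by positivity) (by positivity), Real.log_pow]
    push_cast
    linarith
  · intro R hR1 hR2
    have h1 := log2_le' R hR1
    have h2 : (R : ℝ) ≤ 3 * T := by
      refine le_trans ?_ ha
      exact_mod_cast hR2
    have h3 : (0 : ℝ) < R := by exact_mod_cast hR1
    have h4 := Real.log_le_log h3 h2
    have h5 := hlogc 3 (T : ℝ) (by norm_num) (by positivity)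
    linarith
  · have h2 : (2 * (T : ℝ) + 1) ≤ 3 * T := by linarith
    have h4 := Real.log_le_log (by positivity) h2
    have h5 := hlogc 3 (T : ℝ) (by norm_num) (by positivity)
    linarith
  · linarith

/-- duality -/
theorem dual (N T : ℕ) (v : Fin (N + 1) → ℝ) (b : Fin (N + 1) → ℂ) (V : ℝ) (hV : 0 ≤ V)
    (W : Finset (Fin (2 * T + 1))) (hW : ∀ i ∈ W, V ≤ ‖DD N v b ((zz T i : ℤ) : ℝ)‖) :
    ∃ β : Fin (2 * T + 1) → Fin 4, V ^ 2 * (W.card : ℝ) ^ 2 ≤ 100 / 49 * (∑ n, ‖b n‖ ^ 2) *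
      ∑ n, ‖fs (ee N T) W β n (v n)‖ ^ 2 := by
  classical
  choose β hβ hβ2 using fun i => exists_phase (DD N v b ((zz T i : ℤ) : ℝ))
  choose c hc using fun i => exists_phs (hβ i)
  refine ⟨c, ?_⟩
  have hsw : ∑ i ∈ W, β i * DD N v b ((zz T i : ℤ) : ℝ) = ∑ n, b n * fs (ee N T) W c n (v n) := by
    unfold DD fs ee
    simp_rw [mul_sum]
    rw [sum_comm]
    apply sum_congr rfl
    intro n _
    apply sum_congr rfl
    intro i _
    rw [hc]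
    ring
  have h1 : 7 / 10 * V * W.card ≤ ‖∑ n, b n * fs (ee N T) W c n (v n)‖ := by
    calc 7 / 10 * V * W.card = ∑ i ∈ W, 7 / 10 * V := by rw [sum_const, nsmul_eq_mul]; ring
      _ ≤ ∑ i ∈ W, (β i * DD N v b ((zz T i : ℤ) : ℝ)).re := by
          apply sum_le_sum
          intro i hi
          exact (mul_le_mul_of_nonneg_left (hW i hi) (by norm_num)).trans (hβ2 i)
      _ = (∑ i ∈ W, β i * DD N v b ((zz T i : ℤ) : ℝ)).re := by rw [Complex.re_sum]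
      _ ≤ ‖∑ i ∈ W, β i * DD N v b ((zz T i : ℤ) : ℝ)‖ := Complex.re_le_norm _
      _ = _ := by rw [hsw]
  have h2 : ‖∑ n, b n * fs (ee N T) W c n (v n)‖ ≤ ∑ n, ‖b n‖ * ‖fs (ee N T) W c n (v n)‖ := by
    refine (norm_sum_le _ _).trans (le_of_eq ?_)
    exact sum_congr rfl fun n _ => norm_mul _ _
  have h3 := sum_mul_sq_le_sq_mul_sq univ (fun n => ‖b n‖) (fun n => ‖fs (ee N T) W c n (v n)‖)
  have h4 : (7 / 10 * V * W.card) ^ 2 ≤ (∑ n, ‖b n‖ * ‖fs (ee N T) W c n (v n)‖) ^ 2 :=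
    pow_le_pow_left₀ (by positivity) (h1.trans h2) 2
  have h5 := h4.trans h3
  have e : (7 / 10 * V * W.card) ^ 2 = 49 / 100 * (V ^ 2 * (W.card : ℝ) ^ 2) := by ring
  rw [e] at h5
  have h6 : 100 / 49 * (49 / 100 * (V ^ 2 * (W.card : ℝ) ^ 2)) ≤
      100 / 49 * ((∑ n, ‖b n‖ ^ 2) * ∑ n, ‖fs (ee N T) W c n (v n)‖ ^ 2) :=
    mul_le_mul_of_nonneg_left h5 (by norm_num)
  linarith

/-- the basic property of a good perturbation -/
def Bas (N T : ℕ) (η C L : ℝ) (v : Fin (N + 1) → ℝ) : Prop :=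
  ∀ (W : Finset (Fin (2 * T + 1))) (b : Fin (N + 1) → ℂ) (V : ℝ), W.Nonempty → 0 ≤ V →
    (∀ i ∈ W, V ≤ ‖DD N v b ((zz T i : ℤ) : ℝ)‖) → ∃ β : Fin (2 * T + 1) → Fin 4,
      V ^ 2 * (W.card : ℝ) ^ 2 ≤ C * (∑ n, ‖b n‖ ^ 2) *
        (L * av (ee N T) η W β + L ^ 3 * (W.card : ℝ) ^ 2 + N)

theorem bas (N T : ℕ) (hN : 1 ≤ N) (hT : 1 ≤ T) (δ : ℝ) (hδ : 0 < δ) (hδ1 : δ ≤ 1)
    (η : ℝ) (hη : 0 < η) (hη1 : η ≤ 1) :
    ∃ E : Set (Fin (N + 1) → ℝ), MeasurableSet E ∧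
      volume E ≤ ENNReal.ofReal (δ * η ^ (N + 1)) ∧
      ∀ v : Fin (N + 1) → ℝ, (∀ n, 0 ≤ v n ∧ v n ≤ η) → v ∉ E →
        Bas N T η (9000 * 4000 ^ 3) (LL N T δ) v := by
  classical
  obtain ⟨c, hcd⟩ : ∃ c : ℝ, c = 4000 := ⟨_, rfl⟩
  have hc : 1 ≤ c := by rw [hcd]; norm_num
  obtain ⟨p1, p2, p3, p4, p5, p6⟩ := par N T hN hT δ hδ hδ1
  rw [← hcd] at p2 p3 p4 p5 ⊢
  have hN1 : (1 : ℝ) ≤ N := by exact_mod_cast hN
  have hN0 : (0 : ℝ) < N := by linarith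
  have hT0 : (0 : ℝ) ≤ T := Nat.cast_nonneg _
  obtain ⟨E0, hE0, hE1, hE2⟩ := good_meas (ee N T) (ee_cont N T) η hη δ hδ hδ1
    (by rw [Fintype.card_fin]; omega) (by rw [Fintype.card_fin]; omega)
  rw [Fintype.card_fin, Fintype.card_fin] at hE2
  rw [Fintype.card_fin] at hE1
  obtain ⟨Lam, hLam⟩ : ∃ Lam, Lam = Real.log (100 * ((2 * T + 1 : ℕ) : ℝ) ^ 2 *
    ((N + 1 : ℕ) : ℝ) ^ 2 / δ) := ⟨_, rfl⟩
  rw [← hLam] at hE2 p1 p2
  set box : Set (Fin (N + 1) → ℝ) := Set.pi Set.univ (fun _ => Set.Icc 0 η) with hbox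
  refine ⟨E0 ∩ box, hE0.inter (MeasurableSet.univ_pi fun _ => measurableSet_Icc), ?_, ?_⟩
  · have h1 : volume (E0 ∩ box) = PM (Fin (N + 1)) η E0 := by
      unfold PM lm
      rw [← Measure.restrict_pi_pi, Measure.restrict_apply hE0, ← volume_pi]
    rw [h1]
    have h2 : (PM (Fin (N + 1)) η E0) ≠ ⊤ := measure_ne_top _ _
    rw [← ENNReal.ofReal_toReal h2]
    exact ENNReal.ofReal_le_ofReal hE1
  · intro v hv hvE W b V hW hV hVW
    have hvE0 : v ∉ E0 := by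
      intro h
      apply hvE
      refine ⟨h, ?_⟩
      rw [hbox, Set.mem_pi]
      intro n _
      exact hv n
    obtain ⟨β, hβ⟩ := dual N T v b V hV W hVW
    refine ⟨β, hβ.trans ?_⟩
    set K : ℕ := 16 * (2 * T + 1) * T + 1 with hK
    have hKr : (K : ℝ) = 16 * (2 * T + 1) * T + 1 := by rw [hK]; push_cast; ring
    have hG : ∀ x, 0 ≤ x → x ≤ η → ∃ y ∈ grid η K, ∀ (i : Fin (2 * T + 1)) (n : Fin (N + 1)),
        ‖ee N T i n x - ee N T i n y‖ ≤ 1 / (16 * Fintype.card (Fin (2 * T + 1))) := by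
      intro x hx0 hx1
      obtain ⟨y, hy, hxy⟩ := grid_close η hη K (by omega) x hx0 hx1
      refine ⟨y, hy, fun i n => (ee_lip N T i n x y).trans ?_⟩
      rw [Fintype.card_fin]
      have hK0 : (0 : ℝ) < K := by rw [hKr]; positivity
      calc (T : ℝ) * |x - y| ≤ T * (1 / K) := by
            apply mul_le_mul_of_nonneg_left _ hT0
            exact hxy.trans (div_le_div_of_nonneg_right hη1 hK0.le)
        _ ≤ 1 / (16 * ((2 * T + 1 : ℕ) : ℝ)) := by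
            rw [mul_one_div, div_le_div_iff₀ hK0 (by positivity), hKr]
            push_cast
            nlinarith
    have h1 := main_det (ee N T) (ee_cont N T) (fun i n x => (ee_norm N T i n x).le) η hη
      (by rw [Fintype.card_fin]; omega) (grid η K) hG Lam p1 v hv (hE2 v hvE0) W hW β
    rw [Fintype.card_fin] at h1
    have hgc : (1 : ℝ) ≤ (grid η K).card := by
      obtain ⟨y, hy, _⟩ := hG 0 le_rfl hη.le
      exact_mod_cast card_pos.2 ⟨y, hy⟩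
    obtain ⟨q0, q1⟩ := p3 ((grid η K).card : ℝ) hgc (by
      refine (grid_card η K).trans (le_of_eq ?_)
      rw [hKr]
      ring)
    obtain ⟨ℓ, hℓ⟩ : ∃ ℓ, ℓ = Real.log (4 * (((N + 1 : ℕ) : ℝ) * (grid η K).card)) := ⟨_, rfl⟩
    rw [← hℓ] at h1 q0 q1
    have hwc : 1 ≤ W.card := card_pos.2 hW
    have hwT : W.card ≤ 2 * T + 1 := by
      have := card_le_univ W
      rwa [Fintype.card_fin] at this
    have q2 := p4 W.card hwc hwT
    obtain ⟨g, hg⟩ : ∃ g : ℝ, g = (Nat.log 2 W.card : ℝ) + 2 := ⟨_, rfl⟩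
    rw [← hg] at h1 q2
    have hg0 : 0 ≤ g := by
      rw [hg]
      have : (0 : ℝ) ≤ (Nat.log 2 W.card : ℝ) := Nat.cast_nonneg _
      linarith
    obtain ⟨w, hw⟩ : ∃ w : ℝ, w = (W.card : ℝ) := ⟨_, rfl⟩
    rw [← hw] at h1 ⊢
    obtain ⟨X, hX⟩ : ∃ X : ℝ, X = av (ee N T) η W β := ⟨_, rfl⟩
    have hX0 : 0 ≤ X := by
      rw [hX]
      unfold av
      apply sum_nonneg
      intro n _
      apply div_nonneg _ hη.le
      exact intervalIntegral.integral_nonneg hη.le fun _ _ => sq_nonneg _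
    rw [← hX] at h1 ⊢
    obtain ⟨L, hL⟩ : ∃ L : ℝ, L = LL N T δ := ⟨_, rfl⟩
    have hL1 : 1 ≤ L := by rw [hL]; linarith [Real.log_nonneg hN1]
    rw [← hL] at p2 q1 q2 ⊢
    have hG0 : 0 ≤ ∑ n, ‖b n‖ ^ 2 := sum_nonneg fun _ _ => sq_nonneg _
    have hNN : ((N + 1 : ℕ) : ℝ) ≤ 2 * N := by push_cast; linarith
    have hmain : ∑ n, ‖fs (ee N T) W β n (v n)‖ ^ 2 ≤ 4360 * c ^ 3 * (L * X + L ^ 3 * w ^ 2 + N) := by
      refine h1.trans ?_
      have hc3 : c ≤ c ^ 3 := by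
        have : 1 ≤ c ^ 2 := one_le_pow₀ hc
        nlinarith
      have hc31 : 1 ≤ c ^ 3 := one_le_pow₀ hc
      have hcL : 0 ≤ c * L := by positivity
      have t1 : ℓ * Lam ≤ (c * L) * (c * L) := mul_le_mul q1 p2 (by linarith) hcL
      have t2 : ℓ * Lam * g ≤ (c * L) * (c * L) * (c * L) :=
        mul_le_mul t1 q2 hg0 (by positivity)
      have t3 : X * g ≤ X * (c * L) := mul_le_mul_of_nonneg_left q2 hX0
      have t4 : w ^ 2 * (ℓ * Lam * g) ≤ w ^ 2 * ((c * L) * (c * L) * (c * L)) :=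
        mul_le_mul_of_nonneg_left t2 (sq_nonneg _)
      have t5 : X * (c * L) ≤ c ^ 3 * (L * X) := by
        have := mul_le_mul_of_nonneg_right hc3 (by positivity : 0 ≤ L * X)
        linarith
      have t6 : (N : ℝ) ≤ c ^ 3 * N := le_mul_of_one_le_left hN0.le hc31
      have t7 : 0 ≤ c ^ 3 * (L * X) := by positivity
      have t8 : 0 ≤ c ^ 3 * (N : ℝ) := by positivity
      calc 4 * (56 * X + 1090 * w ^ 2 * ℓ * Lam) * g + ((N + 1 : ℕ) : ℝ)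
          = 224 * (X * g) + 4360 * (w ^ 2 * (ℓ * Lam * g)) + ((N + 1 : ℕ) : ℝ) := by ring
        _ ≤ 224 * (c ^ 3 * (L * X)) + 4360 * (w ^ 2 * ((c * L) * (c * L) * (c * L))) +
              2 * (c ^ 3 * N) := by linarith
        _ ≤ 4360 * (c ^ 3 * (L * X)) + 4360 * (w ^ 2 * ((c * L) * (c * L) * (c * L))) +
              4360 * (c ^ 3 * N) := by linarith
        _ = _ := by ring
    have h8 : 0 ≤ L * X + L ^ 3 * w ^ 2 + N := by positivity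
    calc 100 / 49 * (∑ n, ‖b n‖ ^ 2) * ∑ n, ‖fs (ee N T) W β n (v n)‖ ^ 2
        ≤ 100 / 49 * (∑ n, ‖b n‖ ^ 2) * (4360 * c ^ 3 * (L * X + L ^ 3 * w ^ 2 + N)) :=
          mul_le_mul_of_nonneg_left hmain (by positivity)
      _ = (100 / 49 * 4360) * (c ^ 3 * (∑ n, ‖b n‖ ^ 2) * (L * X + L ^ 3 * w ^ 2 + N)) := by ring
      _ ≤ 9000 * (c ^ 3 * (∑ n, ‖b n‖ ^ 2) * (L * X + L ^ 3 * w ^ 2 + N)) := by
          apply mul_le_mul_of_nonneg_right (by norm_num)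
          positivity
      _ = _ := by ring

end Pool.Agent.E8helper19.RP
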