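import Pool.Agent.E8helper19.RP.Prob
import Pool.Agent.Y959.Her.Prob

set_option autoImplicit false

/-!
# Random perturbations: good perturbations
-/

namespace Pool.Agent.E8helper19.RP

open MeasureTheory Finset Pool.Agent.Y959.Her

variable {κ : Type} [Fintype κ] {ι : Type} [Fintype ι]

/-- the sum belonging to a code, at the frequency `n` and the perturbation `x` -/
noncomputable def gs (e : ι → κ → ℝ → ℂ) {m : ℕ} (c : Fin m → ι × Fin 4) (n : κ) (x : ℝ) : ℂ :=
  ∑ l, phs (c l).2 * e (c l).1 n x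

omit [Fintype κ] [Fintype ι] in
theorem gs_meas (e : ι → κ → ℝ → ℂ) (he : ∀ i n, Continuous (e i n)) {m : ℕ}
    (c : Fin m → ι × Fin 4) (n : κ) (s : ℝ) : MeasurableSet {x | s ≤ ‖gs e c n x‖} := by
  apply measurableSet_le measurable_const
  apply Continuous.measurable
  apply Continuous.norm
  unfold gs
  exact continuous_finsetSum _ fun l _ => continuous_const.mul (he _ _)

/-- the mean number of the frequencies at which the sum of a code is at least `s` -/
noncomputable def mn (e : ι → κ → ℝ → ℂ) (η : ℝ) {m : ℕ} (c : Fin m → ι × Fin 4) (s : ℝ) : ℝ :=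
  ∑ n : κ, (lm η).real {x | s ≤ ‖gs e c n x‖} / η

open Classical in
/-- the good perturbations -/
def GoodV (e : ι → κ → ℝ → ℂ) (η Lam : ℝ) (v : κ → ℝ) : Prop :=
  ∀ m : ℕ, 1 ≤ m → m ≤ Fintype.card κ → ∀ (c : Fin m → ι × Fin 4) (j : ℕ),
    j ≤ 8 * Fintype.card ι * Fintype.card κ →
    (((univ.filter (fun n => (j : ℝ) / (8 * Fintype.card ι) ≤ ‖gs e c n (v n)‖)).card : ℕ) : ℝ) ≤
      7 * mn e η c ((j : ℝ) / (8 * Fintype.card ι)) + m * Lam + 1

open Classical in
theorem good_meas (e : ι → κ → ℝ → ℂ) (he : ∀ i n, Continuous (e i n)) (η : ℝ) (hη : 0 < η)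
    (δ : ℝ) (hδ : 0 < δ) (hδ1 : δ ≤ 1) (hι : 1 ≤ Fintype.card ι) (hκ : 1 ≤ Fintype.card κ) :
    ∃ E : Set (κ → ℝ), MeasurableSet E ∧
      (PM κ η).real E ≤ δ * η ^ Fintype.card κ ∧
      ∀ v, v ∉ E → GoodV e η
        (Real.log (100 * (Fintype.card ι : ℝ) ^ 2 * (Fintype.card κ : ℝ) ^ 2 / δ)) v := by
  have hιc : (1 : ℝ) ≤ Fintype.card ι := by exact_mod_cast hι
  have hκc : (1 : ℝ) ≤ Fintype.card κ := by exact_mod_cast hκ
  obtain ⟨a, ha⟩ : ∃ a : ℝ, a = Fintype.card ι := ⟨_, rfl⟩
  obtain ⟨k, hk⟩ : ∃ k : ℝ, k = Fintype.card κ := ⟨_, rfl⟩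
  obtain ⟨Lam, hLam⟩ : ∃ Lam, Lam = Real.log (100 * a ^ 2 * k ^ 2 / δ) := ⟨_, rfl⟩
  rw [← ha, ← hk, ← hLam]
  rw [← ha] at hιc
  rw [← hk] at hκc
  have harg : (100 : ℝ) ≤ 100 * a ^ 2 * k ^ 2 / δ := by
    rw [le_div_iff₀ hδ]
    have h1 : (1 : ℝ) ≤ a ^ 2 * k ^ 2 :=
      one_le_mul_of_one_le_of_one_le (one_le_pow₀ hιc) (one_le_pow₀ hκc)
    nlinarith
  have hLam1 : 0 ≤ Lam := by
    rw [hLam]
    exact Real.log_nonneg (by linarith)
  have hexp : Real.exp (-Lam) = δ / (100 * a ^ 2 * k ^ 2) := by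
    rw [Real.exp_neg, hLam, Real.exp_log (by linarith), inv_div]
  set J : ℕ := 8 * Fintype.card ι * Fintype.card κ with hJ
  have hJr : (J : ℝ) = 8 * a * k := by rw [hJ, ha, hk]; push_cast; ring
  set lev : ℕ → ℝ := fun j => (j : ℝ) / (8 * Fintype.card ι) with hlev
  set rr : (m : ℕ) → (Fin m → ι × Fin 4) → ℕ → ℕ := fun m c j =>
    ⌈7 * mn e η c (lev j) + m * Lam⌉₊ with hrr
  set E0 : (m : ℕ) → (Fin m → ι × Fin 4) → ℕ → Set (κ → ℝ) := fun m c j =>
    {v | rr m c j ≤ (univ.filter (fun n => v n ∈ {x | lev j ≤ ‖gs e c n x‖})).card} with hE0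
  refine ⟨⋃ m ∈ Icc 1 (Fintype.card κ), ⋃ c : Fin m → ι × Fin 4, ⋃ j ∈ range (J + 1), E0 m c j,
    ?_, ?_, ?_⟩
  · apply Finset.measurableSet_biUnion
    intro m _
    apply MeasurableSet.iUnion
    intro c
    apply Finset.measurableSet_biUnion
    intro j _
    exact cnt_meas _ (fun n => gs_meas e he c n _) _
  · have h1 : ∀ (m : ℕ) (c : Fin m → ι × Fin 4) (j : ℕ), (PM κ η).real (E0 m c j) ≤
        (δ / (100 * a ^ 2 * k ^ 2)) ^ m * η ^ Fintype.card κ := by
      intro m c j
      have h2 := chernoff (κ := κ) η hη (fun n => {x | lev j ≤ ‖gs e c n x‖})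
        (fun n => gs_meas e he c n _) (rr m c j) (by
          refine le_trans ?_ (Nat.le_ceil _)
          have : 0 ≤ (m : ℝ) * Lam := by positivity
          have h3 : mn e η c (lev j) = ∑ n : κ, (lm η).real {x | lev j ≤ ‖gs e c n x‖} / η := rfl
          rw [h3]
          linarith)
      refine h2.trans (mul_le_mul_of_nonneg_right ?_ (by positivity))
      rw [← hexp, ← Real.exp_nat_mul]
      apply Real.exp_le_exp.2
      have h6 : (m : ℝ) * Lam ≤ rr m c j := by
        refine le_trans ?_ (Nat.le_ceil _)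
        have : (0 : ℝ) ≤ 7 * mn e η c (lev j) := by
          unfold mn
          have : 0 ≤ ∑ n : κ, (lm η).real {x | lev j ≤ ‖gs e c n x‖} / η :=
            sum_nonneg fun n _ => div_nonneg measureReal_nonneg hη.le
          linarith
        linarith
      linarith
    have h2 : ∀ m ∈ Icc 1 (Fintype.card κ), (PM κ η).real
        (⋃ c : Fin m → ι × Fin 4, ⋃ j ∈ range (J + 1), E0 m c j) ≤
        δ / k * η ^ Fintype.card κ := by
      intro m hm
      have hm1 := (mem_Icc.1 hm).1
      have h3 : ∀ c : Fin m → ι × Fin 4, (PM κ η).real (⋃ j ∈ range (J + 1), E0 m c j) ≤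
          ((J : ℝ) + 1) * ((δ / (100 * a ^ 2 * k ^ 2)) ^ m * η ^ Fintype.card κ) := by
        intro c
        refine (measureReal_biUnion_finset_le _ _).trans ?_
        refine (sum_le_sum fun j _ => h1 m c j).trans (le_of_eq ?_)
        rw [sum_const, card_range, nsmul_eq_mul]
        push_cast
        ring
      refine (measureReal_iUnion_fintype_le _).trans ?_
      refine (sum_le_sum fun c _ => h3 c).trans ?_
      rw [sum_const, nsmul_eq_mul, card_univ, Fintype.card_fun, Fintype.card_prod, Fintype.card_fin,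
        Fintype.card_fin]
      push_cast
      rw [← ha, hJr]
      calc (a * 4) ^ m * ((8 * a * k + 1) * ((δ / (100 * a ^ 2 * k ^ 2)) ^ m * η ^ Fintype.card κ))
          = (a * 4 * (δ / (100 * a ^ 2 * k ^ 2))) ^ m * (8 * a * k + 1) * η ^ Fintype.card κ := by
            rw [mul_pow (a * 4)]
            ring
        _ ≤ (a * 4 * (δ / (100 * a ^ 2 * k ^ 2))) * (9 * a * k) * η ^ Fintype.card κ := by
            have h7 : a * 4 * (δ / (100 * a ^ 2 * k ^ 2)) ≤ 1 := by
              rw [mul_div_assoc', div_le_one (by positivity)]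
              have h8 : a * 4 * δ ≤ a * 4 := by nlinarith
              have h9 : a * 4 ≤ 100 * a ^ 2 * k ^ 2 := by
                have h10 : (1 : ℝ) ≤ k ^ 2 := one_le_pow₀ hκc
                have h11 : a ≤ a ^ 2 := by nlinarith
                have h12 : a ^ 2 ≤ a ^ 2 * k ^ 2 := by nlinarith [sq_nonneg a]
                nlinarith
              linarith
            have h13 : (a * 4 * (δ / (100 * a ^ 2 * k ^ 2))) ^ m ≤
                a * 4 * (δ / (100 * a ^ 2 * k ^ 2)) :=
              pow_le_of_le_one (by positivity) h7 (by omega)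
            have h14 : 8 * a * k + 1 ≤ 9 * a * k := by nlinarith
            apply mul_le_mul_of_nonneg_right _ (by positivity)
            exact mul_le_mul h13 h14 (by positivity) (by positivity)
        _ = (36 / 100) * (δ / k) * η ^ Fintype.card κ := by
            have : a ≠ 0 := by linarith
            have : k ≠ 0 := by linarith
            field_simp
            ring
        _ ≤ δ / k * η ^ Fintype.card κ := by
            apply mul_le_mul_of_nonneg_right _ (by positivity)
            have : 0 ≤ δ / k := by positivity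
            linarith
    refine (measureReal_biUnion_finset_le _ _).trans ?_
    refine (sum_le_sum h2).trans ?_
    rw [sum_const, nsmul_eq_mul, Nat.card_Icc, Nat.add_sub_cancel, ← hk]
    have : k * (δ / k * η ^ Fintype.card κ) = δ * η ^ Fintype.card κ := by
      have : k ≠ 0 := by linarith
      field_simp
    rw [this]
  · intro v hv m hm1 hm2 c j hj
    by_contra hcon
    push Not at hcon
    apply hv
    simp only [Set.mem_iUnion]
    refine ⟨m, mem_Icc.2 ⟨hm1, hm2⟩, c, j, mem_range.2 (by omega), ?_⟩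
    rw [hE0]
    simp only [Set.mem_ofPred_eq]
    rw [hrr]
    apply Nat.ceil_le.2
    rw [← ha] at hcon
    have h3 : lev j = (j : ℝ) / (8 * a) := by rw [hlev, ha]
    rw [h3]
    linarith
end Pool.Agent.E8helper19.RP
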