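import Pool.Agent.E8helper19.RP.Concl

set_option autoImplicit false

/-!
# Perturbations of the frequencies `log n` with many large values; the form of Q1
-/

namespace Pool.Agent.E8helper19.RP

open MeasureTheory Finset

/-- the resonant perturbation -/
theorem neg (N : ℕ) (η : ℝ) (hη : 0 < η) :
    ∃ v : Fin (N + 1) → ℝ, (∀ n, 0 ≤ v n ∧ v n ≤ η) ∧ ∃ t0 : ℕ, 1 ≤ t0 ∧
      (t0 : ℝ) ≤ 2 * Real.pi / η + 1 ∧ ∀ m : ℤ, DD N v (fun _ => 1) ((m : ℝ) * t0) = N + 1 := by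
  have hpi := Real.pi_pos
  obtain ⟨t0, ht0⟩ : ∃ t0 : ℕ, t0 = ⌈2 * Real.pi / η⌉₊ := ⟨_, rfl⟩
  have h1 : 1 ≤ t0 := by
    rw [ht0]
    exact Nat.one_le_ceil_iff.2 (by positivity)
  have h1' : (0 : ℝ) < t0 := by exact_mod_cast h1
  have h2 : 2 * Real.pi / η ≤ t0 := by rw [ht0]; exact Nat.le_ceil _
  have h3 : (t0 : ℝ) ≤ 2 * Real.pi / η + 1 := by
    rw [ht0]
    exact (Nat.ceil_lt_add_one (by positivity)).le
  set x : Fin (N + 1) → ℝ := fun n => t0 * Real.log ((N : ℝ) + (n : ℕ)) / (2 * Real.pi) with hx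
  refine ⟨fun n => 2 * Real.pi * (⌈x n⌉ - x n) / t0, ?_, t0, h1, h3, ?_⟩
  · intro n
    have h4 := Int.le_ceil (x n)
    have h5 := Int.ceil_lt_add_one (x n)
    constructor
    · apply div_nonneg _ h1'.le
      apply mul_nonneg (by positivity)
      linarith
    · rw [div_le_iff₀ h1']
      rw [div_le_iff₀ hη] at h2
      have h6 : 2 * Real.pi * (⌈x n⌉ - x n) ≤ 2 * Real.pi * 1 := by
        apply mul_le_mul_of_nonneg_left _ (by positivity)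
        linarith
      linarith
  · intro m
    unfold DD
    have h4 : ∀ n : Fin (N + 1), Complex.exp ((((m : ℝ) * t0 * (Real.log ((N : ℝ) + (n : ℕ)) +
        2 * Real.pi * (⌈x n⌉ - x n) / t0) : ℝ) : ℂ) * Complex.I) = 1 := by
      intro n
      have h5 : (m : ℝ) * t0 * (Real.log ((N : ℝ) + (n : ℕ)) +
        2 * Real.pi * (⌈x n⌉ - x n) / t0) = 2 * Real.pi * (m * ⌈x n⌉ : ℤ) := by
        have h6 : (t0 : ℝ) * Real.log ((N : ℝ) + (n : ℕ)) = 2 * Real.pi * x n := by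
          rw [hx]
          field_simp
        have h7 : (t0 : ℝ) * (2 * Real.pi * (⌈x n⌉ - x n) / t0) = 2 * Real.pi * (⌈x n⌉ - x n) := by
          field_simp
        have h8 : (m : ℝ) * t0 * (Real.log ((N : ℝ) + (n : ℕ)) +
          2 * Real.pi * (⌈x n⌉ - x n) / t0) = m * ((t0 : ℝ) * Real.log ((N : ℝ) + (n : ℕ))) +
          m * ((t0 : ℝ) * (2 * Real.pi * (⌈x n⌉ - x n) / t0)) := by ring
        rw [h8, h6, h7]
        push_cast
        ring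
      rw [h5]
      have h6 : (((2 * Real.pi * (m * ⌈x n⌉ : ℤ) : ℝ) : ℂ)) * Complex.I =
          ((m * ⌈x n⌉ : ℤ) : ℂ) * (2 * Real.pi * Complex.I) := by
        push_cast
        ring
      rw [h6, Complex.exp_int_mul_two_pi_mul_I]
    rw [sum_congr rfl fun n _ => by rw [h4 n, one_mul]]
    simp

/-- many values `N + 1` -/
theorem neg' (N : ℕ) (η : ℝ) (hη : 0 < η) :
    ∃ v : Fin (N + 1) → ℝ, (∀ n, 0 ≤ v n ∧ v n ≤ η) ∧ ∀ R : ℕ, ∃ W : Finset ℤ, W.card = R ∧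
      (∀ t ∈ W, (0 : ℝ) ≤ t ∧ (t : ℝ) ≤ R * (2 * Real.pi / η + 1)) ∧
      ∀ t ∈ W, DD N v (fun _ => 1) (t : ℝ) = N + 1 := by
  obtain ⟨v, hv, t0, h1, h2, h3⟩ := neg N η hη
  refine ⟨v, hv, fun R => ?_⟩
  have h1' : (0 : ℝ) < t0 := by exact_mod_cast h1
  refine ⟨(range R).image (fun m : ℕ => (m : ℤ) * t0), ?_, ?_, ?_⟩
  · rw [card_image_of_injective, card_range]
    intro a b hab
    simp only at hab
    have h4 : (t0 : ℤ) ≠ 0 := by omega
    have := mul_right_cancel₀ h4 hab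
    exact_mod_cast this
  · intro t ht
    rw [mem_image] at ht
    obtain ⟨m, hm, rfl⟩ := ht
    have hm' : (m : ℝ) ≤ R := by exact_mod_cast (mem_range.1 hm).le
    have hm0 : (0 : ℝ) ≤ m := Nat.cast_nonneg _
    push_cast
    refine ⟨by positivity, ?_⟩
    exact mul_le_mul hm' h2 h1'.le (by linarith)
  · intro t ht
    rw [mem_image] at ht
    obtain ⟨m, hm, rfl⟩ := ht
    have := h3 m
    push_cast at this ⊢
    exact this

theorem L_le (ρ : ℝ) (hρ : 0 < ρ) (N : ℕ) (hN : 1 ≤ N) :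
    1 + Real.log N ≤ (1 + 1 / ρ) * (N : ℝ) ^ ρ := by
  have hN1 : (1 : ℝ) ≤ N := by exact_mod_cast hN
  have h1 := Real.log_le_rpow_div (x := (N : ℝ)) (by linarith) hρ
  have h2 : (1 : ℝ) ≤ (N : ℝ) ^ ρ := Real.one_le_rpow hN1 hρ.le
  have e : (1 + 1 / ρ) * (N : ℝ) ^ ρ = (N : ℝ) ^ ρ + (N : ℝ) ^ ρ / ρ := by ring
  rw [e]
  linarith

/-- the form of Q1 -/
theorem qform (A C σ ε : ℝ) (hA : 0 ≤ A) (hC : 1 ≤ C) (hσ : 1 / 2 < σ) (hε : 0 < ε) :
    ∃ C2 : ℝ, 0 < C2 ∧ ∀ N : ℕ, 1 ≤ N → ∀ η : ℝ, 0 < η → η ≤ 1 / (3 * N) → ∀ w : ℝ, 0 ≤ w →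
      w ≤ 3 * (N : ℝ) ^ A →
      ((N : ℝ) ^ σ) ^ 2 * w ≤ 16 * C * N * ((1 + Real.log N) / η + (1 + Real.log N) ^ 3 * w) →
      w ≤ C2 * (N : ℝ) ^ (1 - 2 * σ + ε) / η := by
  obtain ⟨ρ, hρ⟩ : ∃ ρ, ρ = (2 * σ - 1) / 6 := ⟨_, rfl⟩
  have hρ0 : 0 < ρ := by rw [hρ]; linarith
  obtain ⟨M, hM⟩ : ∃ M, M = 32 * C * (1 + 1 / ρ) ^ 3 := ⟨_, rfl⟩
  have hM1 : 1 ≤ M := by
    rw [hM]
    have h1 : 1 ≤ (1 + 1 / ρ) ^ 3 := one_le_pow₀ (by
      have : 0 < 1 / ρ := by positivity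
      linarith)
    nlinarith
  obtain ⟨N0, hN0⟩ : ∃ N0 : ℝ, N0 = M ^ (1 / (3 * ρ)) := ⟨_, rfl⟩
  have hN01 : 1 ≤ N0 := by rw [hN0]; exact Real.one_le_rpow hM1 (by positivity)
  refine ⟨32 * C * (1 + 1 / ε) + 3 * N0 ^ (A + 2 * σ), by positivity, ?_⟩
  intro N hN η hη hηN w hw hwA h
  have hN1 : (1 : ℝ) ≤ N := by exact_mod_cast hN
  have hNpos : (0 : ℝ) < N := by linarith
  obtain ⟨L, hL⟩ : ∃ L : ℝ, L = 1 + Real.log N := ⟨_, rfl⟩
  have hL1 : 1 ≤ L := by rw [hL]; linarith [Real.log_nonneg hN1]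
  rw [← hL] at h
  have hV : ((N : ℝ) ^ σ) ^ 2 = (N : ℝ) ^ (2 * σ) := by
    rw [← Real.rpow_natCast, ← Real.rpow_mul hNpos.le]
    congr 1
    push_cast
    ring
  rw [hV] at h
  have hV0 : 0 < (N : ℝ) ^ (2 * σ) := Real.rpow_pos_of_pos hNpos _
  have hX0 : 0 < (N : ℝ) ^ (1 - 2 * σ + ε) := Real.rpow_pos_of_pos hNpos _
  rw [add_mul, add_div]
  rcases le_or_gt (32 * C * N * L ^ 3) ((N : ℝ) ^ (2 * σ)) with h1 | h1
  · have h2 : 16 * C * N * (L ^ 3 * w) ≤ (N : ℝ) ^ (2 * σ) * w / 2 := by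
      have := mul_le_mul_of_nonneg_right h1 hw
      linarith
    have h3 : (N : ℝ) ^ (2 * σ) * w ≤ 32 * C * N * (L / η) := by linarith
    have h4 : L ≤ (1 + 1 / ε) * (N : ℝ) ^ ε := by rw [hL]; exact L_le ε hε N hN
    have h5 : w ≤ 32 * C * (1 + 1 / ε) * (N : ℝ) ^ (1 - 2 * σ + ε) / η := by
      have h6 : (N : ℝ) ^ (2 * σ) * w ≤ (N : ℝ) ^ (2 * σ) *
          (32 * C * (1 + 1 / ε) * (N : ℝ) ^ (1 - 2 * σ + ε) / η) := by
        refine h3.trans ?_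
        have e : (N : ℝ) ^ (2 * σ) * (N : ℝ) ^ (1 - 2 * σ + ε) = N * (N : ℝ) ^ ε := by
          rw [← Real.rpow_add hNpos, ← Real.rpow_one_add' hNpos.le (by linarith)]
          congr 1
          ring
        calc 32 * C * N * (L / η) ≤ 32 * C * N * ((1 + 1 / ε) * (N : ℝ) ^ ε / η) := by
              apply mul_le_mul_of_nonneg_left _ (by positivity)
              exact div_le_div_of_nonneg_right h4 hη.le
          _ = 32 * C * (1 + 1 / ε) * (N * (N : ℝ) ^ ε) / η := by ring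
          _ = _ := by rw [← e]; ring
      exact le_of_mul_le_mul_left h6 hV0
    have h6 : 0 ≤ 3 * N0 ^ (A + 2 * σ) * (N : ℝ) ^ (1 - 2 * σ + ε) / η := by positivity
    linarith
  · have h2 : L ^ 3 ≤ (1 + 1 / ρ) ^ 3 * (N : ℝ) ^ (3 * ρ) := by
      have h3 : L ≤ (1 + 1 / ρ) * (N : ℝ) ^ ρ := by rw [hL]; exact L_le ρ hρ0 N hN
      have h4 := pow_le_pow_left₀ (by linarith) h3 3
      rw [mul_pow] at h4
      have e : (N : ℝ) ^ (3 * ρ) = ((N : ℝ) ^ ρ) ^ 3 := by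
        rw [← Real.rpow_natCast, ← Real.rpow_mul hNpos.le]
        congr 1
        push_cast
        ring
      rw [e]
      exact h4
    have h3 : (N : ℝ) ^ (2 * σ) ≤ M * (N : ℝ) ^ (1 + 3 * ρ) := by
      refine h1.le.trans ?_
      rw [hM, Real.rpow_add hNpos, Real.rpow_one]
      have := mul_le_mul_of_nonneg_left h2 (by positivity : 0 ≤ 32 * C * (N : ℝ))
      linarith
    have h4 : (N : ℝ) ^ (3 * ρ) ≤ M := by
      have e : (N : ℝ) ^ (2 * σ) = (N : ℝ) ^ (3 * ρ) * (N : ℝ) ^ (1 + 3 * ρ) := by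
        rw [← Real.rpow_add hNpos]
        congr 1
        rw [hρ]
        ring
      rw [e] at h3
      exact le_of_mul_le_mul_right h3 (Real.rpow_pos_of_pos hNpos _)
    have h5 : (N : ℝ) ≤ N0 := by
      have h6 := Real.rpow_le_rpow (by positivity) h4 (by positivity : 0 ≤ 1 / (3 * ρ))
      rw [← Real.rpow_mul hNpos.le] at h6
      have e : 3 * ρ * (1 / (3 * ρ)) = 1 := by field_simp
      rw [e, Real.rpow_one] at h6
      rw [hN0]
      exact h6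
    have h6 : w ≤ 3 * N0 ^ A := by
      refine hwA.trans ?_
      have := Real.rpow_le_rpow hNpos.le h5 hA
      linarith
    have h7 : N0 ^ (-(2 * σ)) ≤ (N : ℝ) ^ (1 - 2 * σ + ε) / η := by
      have h8 : N0 ^ (-(2 * σ)) ≤ (N : ℝ) ^ (-(2 * σ)) := by
        apply Real.rpow_le_rpow_of_nonpos hNpos h5 (by linarith)
      have h9 : (N : ℝ) ^ (-(2 * σ)) ≤ (N : ℝ) ^ (1 - 2 * σ + ε) :=
        Real.rpow_le_rpow_of_exponent_le hN1 (by linarith)
      have h10 : η ≤ 1 := by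
        refine hηN.trans ?_
        rw [div_le_one (by positivity)]
        linarith
      have h11 : (N : ℝ) ^ (1 - 2 * σ + ε) ≤ (N : ℝ) ^ (1 - 2 * σ + ε) / η := by
        rw [le_div_iff₀ hη]
        exact mul_le_of_le_one_right hX0.le h10
      linarith
    have h8 : w ≤ 3 * N0 ^ (A + 2 * σ) * (N : ℝ) ^ (1 - 2 * σ + ε) / η := by
      have h9 := mul_le_mul_of_nonneg_left h7 (by positivity : 0 ≤ 3 * N0 ^ (A + 2 * σ))
      have e : 3 * N0 ^ (A + 2 * σ) * N0 ^ (-(2 * σ)) = 3 * N0 ^ A := by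
        rw [mul_assoc, ← Real.rpow_add (by linarith)]
        congr 2
        ring
      rw [e] at h9
      refine h6.trans (h9.trans (le_of_eq ?_))
      ring
    have h9 : 0 ≤ 32 * C * (1 + 1 / ε) * (N : ℝ) ^ (1 - 2 * σ + ε) / η := by positivity
    linarith

end Pool.Agent.E8helper19.RP
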