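import Mathlib

set_option autoImplicit false

/-!
# Random perturbations: large deviations for products of uniform variables
-/

namespace Pool.Agent.E8helper19.RP

open MeasureTheory Finset

/-- Lebesgue measure on `[0, η]` -/
noncomputable def lm (η : ℝ) : Measure ℝ := volume.restrict (Set.Icc 0 η)

instance (η : ℝ) : IsFiniteMeasure (lm η) := by
  unfold lm
  infer_instance

/-- Lebesgue measure on `[0, η]^κ` -/
noncomputable def PM (κ : Type) [Fintype κ] (η : ℝ) : Measure (κ → ℝ) :=
  Measure.pi (fun _ => lm η)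

instance (κ : Type) [Fintype κ] (η : ℝ) : IsFiniteMeasure (PM κ η) := by
  unfold PM
  infer_instance

theorem lm_univ {η : ℝ} (hη : 0 < η) : (lm η).real Set.univ = η := by
  unfold lm
  rw [measureReal_restrict_apply_univ, Real.volume_real_Icc_of_le hη.le, sub_zero]

variable {κ : Type} [Fintype κ]

theorem cnt_meas (B : κ → Set ℝ) (hB : ∀ i, MeasurableSet (B i)) (r : ℕ) [∀ v : κ → ℝ, DecidablePred (fun i => v i ∈ B i)] :
    MeasurableSet {v : κ → ℝ | r ≤ (univ.filter (fun i => v i ∈ B i)).card} := by
  classical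
  have h : {v : κ → ℝ | r ≤ (univ.filter (fun i => v i ∈ B i)).card} =
      {v : κ → ℝ | (r : ℝ) ≤ ∑ i, (B i).indicator (fun _ => (1 : ℝ)) (v i)} := by
    ext v
    rw [Set.mem_ofPred_eq, Set.mem_ofPred_eq]
    have h1 : ∑ i, (B i).indicator (fun _ => (1 : ℝ)) (v i) =
        ((univ.filter (fun i => v i ∈ B i)).card : ℝ) := by
      rw [card_filter]
      push_cast
      apply sum_congr rfl
      intro i _
      simp only [Set.indicator]
    rw [h1]
    exact Nat.cast_le.symm
  rw [h]
  apply measurableSet_le measurable_const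
  apply Finset.measurable_sum
  intro i _
  exact (measurable_const.indicator (hB i)).comp (measurable_pi_apply i)

/-- **Chernoff bound.** -/
theorem chernoff (η : ℝ) (hη : 0 < η) (B : κ → Set ℝ) (hB : ∀ i, MeasurableSet (B i)) (r : ℕ)
    (hr : 7 * ∑ i, (lm η).real (B i) / η ≤ r) [∀ v : κ → ℝ, DecidablePred (fun i => v i ∈ B i)] :
    (PM κ η).real {v | r ≤ (univ.filter (fun i => v i ∈ B i)).card} ≤
      Real.exp (-r) * η ^ Fintype.card κ := by
  classical
  set f : κ → ℝ → ℝ := fun i x => 1 + 7 * (B i).indicator (fun _ => (1 : ℝ)) x with hf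
  have hint : ∀ i, Integrable (f i) (lm η) := by
    intro i
    apply (integrable_const _).add
    apply Integrable.const_mul
    exact (integrable_const _).indicator (hB i)
  have hval : ∀ i, ∫ x, f i x ∂(lm η) = η + 7 * (lm η).real (B i) := by
    intro i
    rw [hf]
    simp only
    rw [integral_add (integrable_const _)
      (((integrable_const _).indicator (hB i)).const_mul _), integral_const, lm_univ hη,
      integral_const_mul, integral_indicator_const _ (hB i)]
    simp
  have hprod : ∀ v : κ → ℝ, ∏ i, f i (v i) = 8 ^ (univ.filter (fun i => v i ∈ B i)).card := by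
    intro v
    rw [← Finset.prod_const, Finset.prod_filter]
    apply prod_congr rfl
    intro i _
    rw [hf]
    simp only [Set.indicator]
    split_ifs <;> norm_num
  have hnn : 0 ≤ᵐ[PM κ η] fun v : κ → ℝ => ∏ i, f i (v i) := by
    apply Filter.Eventually.of_forall
    intro v
    show (0 : ℝ) ≤ ∏ i, f i (v i)
    rw [hprod]
    positivity
  have hI : Integrable (fun v : κ → ℝ => ∏ i, f i (v i)) (PM κ η) := by
    unfold PM
    exact Integrable.fintype_prod hint
  have h1 := mul_meas_ge_le_integral_of_nonneg hnn hI ((8 : ℝ) ^ r)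
  have h2 : ∫ v : κ → ℝ, ∏ i, f i (v i) ∂(PM κ η) = ∏ i, (η + 7 * (lm η).real (B i)) := by
    unfold PM
    rw [integral_fintype_prod_eq_prod]
    exact prod_congr rfl fun i _ => hval i
  rw [h2] at h1
  have h3 : ∏ i, (η + 7 * (lm η).real (B i)) ≤ η ^ Fintype.card κ * Real.exp r := by
    calc ∏ i, (η + 7 * (lm η).real (B i)) ≤ ∏ i, (η * Real.exp (7 * ((lm η).real (B i) / η))) := by
          apply prod_le_prod
          · intro i _
            have : 0 ≤ (lm η).real (B i) := measureReal_nonneg
            positivity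
          · intro i _
            have h4 := Real.add_one_le_exp (7 * ((lm η).real (B i) / η))
            have h5 : η + 7 * (lm η).real (B i) = η * (7 * ((lm η).real (B i) / η) + 1) := by
              field_simp
              ring
            rw [h5]
            exact mul_le_mul_of_nonneg_left h4 hη.le
      _ = η ^ Fintype.card κ * Real.exp (7 * ∑ i, (lm η).real (B i) / η) := by
          rw [prod_mul_distrib, prod_const, card_univ, ← Real.exp_sum, ← mul_sum]
      _ ≤ _ := by
          apply mul_le_mul_of_nonneg_left _ (by positivity)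
          exact Real.exp_le_exp.2 hr
  have h4 : (PM κ η).real {v | r ≤ (univ.filter (fun i => v i ∈ B i)).card} ≤
      (PM κ η).real {v | (8 : ℝ) ^ r ≤ ∏ i, f i (v i)} := by
    apply measureReal_mono _ (by finiteness)
    intro v hv
    rw [Set.mem_ofPred_eq] at hv ⊢
    rw [hprod]
    exact pow_le_pow_right₀ (by norm_num) hv
  have h5 : Real.exp (2 * r) ≤ (8 : ℝ) ^ r := by
    have h6 : Real.exp (2 * r) = (Real.exp 2) ^ r := by
      rw [← Real.exp_nat_mul]
      ring_nf
    rw [h6]
    apply pow_le_pow_left₀ (Real.exp_pos _).le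
    have h7 : Real.exp 2 = Real.exp 1 * Real.exp 1 := by
      rw [← Real.exp_add]
      norm_num
    have := Real.exp_one_lt_d9
    have := Real.exp_pos 1
    rw [h7]
    nlinarith
  set p := (PM κ η).real {v | r ≤ (univ.filter (fun i => v i ∈ B i)).card} with hp
  have hp0 : 0 ≤ p := measureReal_nonneg
  have h8 : Real.exp (2 * r) * p ≤ η ^ Fintype.card κ * Real.exp r := by
    calc Real.exp (2 * r) * p ≤ (8 : ℝ) ^ r * p := mul_le_mul_of_nonneg_right h5 hp0
      _ ≤ (8 : ℝ) ^ r * (PM κ η).real {v | (8 : ℝ) ^ r ≤ ∏ i, f i (v i)} :=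
          mul_le_mul_of_nonneg_left h4 (by positivity)
      _ ≤ _ := h1.trans h3
  have h9 : Real.exp (2 * r) * p ≤ Real.exp (2 * r) * (Real.exp (-r) * η ^ Fintype.card κ) := by
    refine h8.trans (le_of_eq ?_)
    rw [← mul_assoc, ← Real.exp_add]
    have : (2 * (r : ℝ) + -r) = r := by ring
    rw [this]
    ring
  exact le_of_mul_le_mul_left h9 (Real.exp_pos _)

end Pool.Agent.E8helper19.RP
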