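import Pool.Agent.E8helper19.RP.Det
import Pool.Agent.Y959.Rs.Hal

set_option autoImplicit false

/-!
# Random perturbations of the frequencies `log n`: means over the perturbations
-/

namespace Pool.Agent.E8helper19.RP

open MeasureTheory Finset Pool.Agent.Y959.Her Pool.Agent.Y959.Rs Pool.Agent.TH705.DL

/-- the integer belonging to an index -/
def zz (T : ℕ) (i : Fin (2 * T + 1)) : ℤ := ((i : ℕ) : ℤ) - T

theorem zz_inj (T : ℕ) : Function.Injective (zz T) := by
  intro i j h
  unfold zz at h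
  apply Fin.ext
  omega

theorem zz_abs (T : ℕ) (i : Fin (2 * T + 1)) : |((zz T i : ℤ) : ℝ)| ≤ T := by
  have h1 := i.2
  have h2 : |zz T i| ≤ T := by
    unfold zz
    rw [abs_le]
    constructor <;> omega
  exact_mod_cast h2

/-- `(N + n)^{it} e^{itx}` -/
noncomputable def ee (N T : ℕ) (i : Fin (2 * T + 1)) (n : Fin (N + 1)) (x : ℝ) : ℂ :=
  Complex.exp ((((zz T i : ℤ) : ℝ) * (Real.log ((N : ℝ) + (n : ℕ)) + x) : ℝ) * Complex.I)

theorem ee_cont (N T : ℕ) (i : Fin (2 * T + 1)) (n : Fin (N + 1)) : Continuous (ee N T i n) := by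
  unfold ee
  fun_prop

theorem ee_norm (N T : ℕ) (i : Fin (2 * T + 1)) (n : Fin (N + 1)) (x : ℝ) : ‖ee N T i n x‖ = 1 := by
  unfold ee
  exact Complex.norm_exp_ofReal_mul_I _

theorem ee_lip (N T : ℕ) (i : Fin (2 * T + 1)) (n : Fin (N + 1)) (x y : ℝ) :
    ‖ee N T i n x - ee N T i n y‖ ≤ T * |x - y| := by
  have h1 : ee N T i n x - ee N T i n y = ee N T i n y *
      (Complex.exp ((((zz T i : ℤ) : ℝ) * (x - y) : ℝ) * Complex.I) - 1) := by
    unfold ee
    rw [mul_sub, mul_one, ← Complex.exp_add]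
    congr 2
    push_cast
    ring
  rw [h1, norm_mul, ee_norm, one_mul]
  have h2 := Real.norm_exp_I_mul_ofReal_sub_one_le (x := ((zz T i : ℤ) : ℝ) * (x - y))
  rw [mul_comm Complex.I] at h2
  refine h2.trans ?_
  rw [Real.norm_eq_abs, abs_mul]
  exact mul_le_mul_of_nonneg_right (zz_abs T i) (abs_nonneg _)

/-- the grid -/
noncomputable def grid (η : ℝ) (K : ℕ) : Finset ℝ := (range (K + 1)).image (fun k : ℕ => η * k / K)

theorem grid_card (η : ℝ) (K : ℕ) : ((grid η K).card : ℝ) ≤ K + 1 := by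
  have h := card_image_le (s := range (K + 1)) (f := fun k : ℕ => η * k / K)
  rw [card_range] at h
  unfold grid
  exact_mod_cast h

theorem grid_close (η : ℝ) (hη : 0 < η) (K : ℕ) (hK : 1 ≤ K) (x : ℝ) (hx : 0 ≤ x) (hx1 : x ≤ η) :
    ∃ y ∈ grid η K, |x - y| ≤ η / K := by
  have hK0 : (0 : ℝ) < K := by exact_mod_cast hK
  refine ⟨η * (⌊x * K / η⌋₊ : ℕ) / K, ?_, ?_⟩
  · unfold grid
    rw [mem_image]
    refine ⟨⌊x * K / η⌋₊, ?_, rfl⟩
    rw [mem_range]
    have h1 : (⌊x * K / η⌋₊ : ℝ) ≤ x * K / η := Nat.floor_le (by positivity)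
    have h2 : x * K / η ≤ K := by
      rw [div_le_iff₀ hη]
      nlinarith
    have h3 : (⌊x * K / η⌋₊ : ℝ) ≤ K := h1.trans h2
    have h4 : ⌊x * K / η⌋₊ ≤ K := by exact_mod_cast h3
    omega
  · have h1 : (⌊x * K / η⌋₊ : ℝ) ≤ x * K / η := Nat.floor_le (by positivity)
    have h2 : x * K / η < ⌊x * K / η⌋₊ + 1 := Nat.lt_floor_add_one _
    have e : x = η * (x * K / η) / K := by field_simp
    rw [abs_le]
    constructor
    · have : η * (⌊x * K / η⌋₊ : ℝ) / K ≤ η * (x * K / η) / K := by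
        apply div_le_div_of_nonneg_right _ hK0.le
        exact mul_le_mul_of_nonneg_left h1 hη.le
      have h3 : 0 ≤ η / K := by positivity
      linarith
    · have : η * (x * K / η) / K ≤ η * ((⌊x * K / η⌋₊ : ℝ) + 1) / K := by
        apply div_le_div_of_nonneg_right _ hK0.le
        exact mul_le_mul_of_nonneg_left h2.le hη.le
      have h3 : η * ((⌊x * K / η⌋₊ : ℝ) + 1) / K = η * (⌊x * K / η⌋₊ : ℝ) / K + η / K := by ring
      linarith

/-! ### the orthogonality relation -/

theorem exp_int (m : ℤ) (a : ℝ) :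
    ∫ y in a..(a + 2 * Real.pi), Complex.exp (((m : ℝ) * y : ℝ) * Complex.I) =
      if m = 0 then ((2 * Real.pi : ℝ) : ℂ) else 0 := by
  split_ifs with h
  · subst h
    simp
  · have hc : (m : ℂ) * Complex.I ≠ 0 := by
      apply mul_ne_zero _ Complex.I_ne_zero
      exact_mod_cast h
    have h1 : ∀ y : ℝ, Complex.exp (((m : ℝ) * y : ℝ) * Complex.I) =
        Complex.exp ((m : ℂ) * Complex.I * y) := by
      intro y
      congr 1
      push_cast
      ring
    simp_rw [h1]
    rw [integral_exp_mul_complex hc]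
    have h2 : Complex.exp ((m : ℂ) * Complex.I * ((a + 2 * Real.pi : ℝ) : ℂ)) =
        Complex.exp ((m : ℂ) * Complex.I * (a : ℂ)) := by
      have h3 : (m : ℂ) * Complex.I * ((a + 2 * Real.pi : ℝ) : ℂ) =
          (m : ℂ) * Complex.I * (a : ℂ) + m * (2 * Real.pi * Complex.I) := by
        push_cast
        ring
      rw [h3, Complex.exp_add, Complex.exp_int_mul_two_pi_mul_I, mul_one]
    rw [h2, sub_self, zero_div]

theorem sq_expand {α : Type*} (W : Finset α) (f : α → ℂ) :
    ((‖∑ i ∈ W, f i‖ ^ 2 : ℝ) : ℂ) = ∑ i ∈ W, ∑ j ∈ W, f i * (starRingEnd ℂ) (f j) := by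
  push_cast
  rw [← Complex.mul_conj', map_sum, sum_mul_sum]

theorem parseval {α : Type*} (W : Finset α) (k : α → ℤ) (hk : Set.InjOn k W) (c : α → ℂ) (a : ℝ) :
    ∫ y in a..(a + 2 * Real.pi), ‖∑ i ∈ W, c i * Complex.exp (((k i : ℝ) * y : ℝ) * Complex.I)‖ ^ 2 =
      2 * Real.pi * ∑ i ∈ W, ‖c i‖ ^ 2 := by
  classical
  have hcont : ∀ m : ℤ, Continuous fun y : ℝ => Complex.exp (((m : ℝ) * y : ℝ) * Complex.I) := by
    intro m
    fun_prop
  have h1 : ((∫ y in a..(a + 2 * Real.pi),
      ‖∑ i ∈ W, c i * Complex.exp (((k i : ℝ) * y : ℝ) * Complex.I)‖ ^ 2 : ℝ) : ℂ) =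
      ∑ i ∈ W, ∑ j ∈ W, c i * (starRingEnd ℂ) (c j) *
        (if k i - k j = 0 then ((2 * Real.pi : ℝ) : ℂ) else 0) := by
    rw [← intervalIntegral.integral_ofReal]
    have h2 : ∀ y : ℝ, ((‖∑ i ∈ W, c i * Complex.exp (((k i : ℝ) * y : ℝ) * Complex.I)‖ ^ 2 : ℝ) : ℂ) =
        ∑ i ∈ W, ∑ j ∈ W, c i * (starRingEnd ℂ) (c j) *
          Complex.exp ((((k i - k j : ℤ) : ℝ) * y : ℝ) * Complex.I) := by
      intro y
      rw [sq_expand]
      apply sum_congr rfl
      intro i _
      apply sum_congr rfl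
      intro j _
      rw [map_mul, ← Complex.exp_conj, map_mul, Complex.conj_I, Complex.conj_ofReal]
      have h3 : Complex.exp ((((k i - k j : ℤ) : ℝ) * y : ℝ) * Complex.I) =
          Complex.exp (((k i : ℝ) * y : ℝ) * Complex.I) *
            Complex.exp (((k j : ℝ) * y : ℝ) * -Complex.I) := by
        rw [← Complex.exp_add]
        congr 1
        push_cast
        ring
      rw [h3]
      ring
    simp_rw [h2]
    rw [intervalIntegral.integral_finsetSum]
    · apply sum_congr rfl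
      intro i _
      rw [intervalIntegral.integral_finsetSum]
      · apply sum_congr rfl
        intro j _
        rw [intervalIntegral.integral_const_mul, exp_int]
      · intro j _
        exact (continuous_const.mul (hcont _)).intervalIntegrable _ _
    · intro i _
      exact (continuous_finsetSum _ fun j _ => continuous_const.mul (hcont _)).intervalIntegrable _ _
  have h2 : (∑ i ∈ W, ∑ j ∈ W, c i * (starRingEnd ℂ) (c j) *
        (if k i - k j = 0 then ((2 * Real.pi : ℝ) : ℂ) else 0)) =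
      ((2 * Real.pi * ∑ i ∈ W, ‖c i‖ ^ 2 : ℝ) : ℂ) := by
    push_cast
    rw [mul_sum]
    apply sum_congr rfl
    intro i hi
    rw [sum_eq_single i]
    · rw [if_pos (sub_self _), ← Complex.mul_conj']
      push_cast
      ring
    · intro j hj hji
      rw [if_neg, mul_zero]
      intro h
      exact hji (hk hj hi (by omega))
    · intro h
      exact absurd hi h
  rw [h2] at h1
  exact_mod_cast h1

theorem sum_int (g : ℝ → ℝ) (hg : Continuous g) (h0 : ∀ y, 0 ≤ g y) (η : ℝ) (hη : 0 ≤ η)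
    (a : ℕ → ℝ) : ∀ M : ℕ, (∀ n < M, a n + η ≤ a (n + 1)) →
    ∑ n ∈ range M, ∫ y in (a n)..(a n + η), g y ≤ ∫ y in (a 0)..(a M), g y := by
  intro M
  induction M with
  | zero => intro _; simp
  | succ M ih =>
    intro h
    rw [sum_range_succ]
    have h1 := ih (fun n hn => h n (by omega))
    have h2 : ∫ y in (a 0)..(a (M + 1)), g y =
        (∫ y in (a 0)..(a M), g y) + (∫ y in (a M)..(a M + η), g y) +
          ∫ y in (a M + η)..(a (M + 1)), g y := by
      rw [intervalIntegral.integral_add_adjacent_intervals (hg.intervalIntegrable _ _)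
        (hg.intervalIntegrable _ _), intervalIntegral.integral_add_adjacent_intervals
        (hg.intervalIntegrable _ _) (hg.intervalIntegrable _ _)]
    have h3 : 0 ≤ ∫ y in (a M + η)..(a (M + 1)), g y :=
      intervalIntegral.integral_nonneg (h M (by omega)) fun y _ => h0 y
    linarith

/-- **The mean over the perturbations, first bound.** -/
theorem av_one (N T : ℕ) (hN : 1 ≤ N) (η : ℝ) (hη : 0 < η) (hηN : η ≤ 1 / (3 * N))
    (W : Finset (Fin (2 * T + 1))) (b : Fin (2 * T + 1) → Fin 4) :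
    av (ee N T) η W b ≤ 7 * W.card / η := by
  have hN1 : (1 : ℝ) ≤ N := by exact_mod_cast hN
  have hpi := Real.pi_gt_three
  have hpi2 := Real.pi_lt_d2
  set f : ℝ → ℂ := fun y => ∑ i ∈ W, phs (b i) *
    Complex.exp ((((zz T i : ℤ) : ℝ) * y : ℝ) * Complex.I) with hf
  have hfc : Continuous f := by
    rw [hf]
    exact continuous_finsetSum _ fun l _ => continuous_const.mul (by fun_prop)
  set g : ℝ → ℝ := fun y => ‖f y‖ ^ 2 with hg
  have hgc : Continuous g := hfc.norm.pow 2
  have hg0 : ∀ y, 0 ≤ g y := fun y => sq_nonneg _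
  set a : ℕ → ℝ := fun n => Real.log ((N : ℝ) + n) with ha
  have h1 : ∀ n : Fin (N + 1), ∫ x in (0 : ℝ)..η, ‖fs (ee N T) W b n x‖ ^ 2 =
      ∫ y in (a n)..(a n + η), g y := by
    intro n
    have h2 := intervalIntegral.integral_comp_add_left (a := 0) (b := η) g (a n)
    rw [add_zero] at h2
    rw [← h2]
    rfl
  have h2 : ∀ n < N + 1, a n + η ≤ a (n + 1) := by
    intro n hn
    have hn' : (n : ℝ) ≤ N := by exact_mod_cast (by omega : n ≤ N)
    rw [ha]
    simp only
    push_cast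
    have h3 : Real.log ((N : ℝ) + (n + 1)) - Real.log ((N : ℝ) + n) =
        - Real.log (((N : ℝ) + n) / ((N : ℝ) + (n + 1))) := by
      rw [Real.log_div (by positivity) (by positivity)]
      ring
    have h4 := Real.log_le_sub_one_of_pos
      (show 0 < ((N : ℝ) + n) / ((N : ℝ) + (n + 1)) by positivity)
    have h5 : ((N : ℝ) + n) / ((N : ℝ) + (n + 1)) - 1 = - (1 / ((N : ℝ) + (n + 1))) := by
      field_simp
      ring
    rw [h5] at h4
    have h6 : 1 / (3 * (N : ℝ)) ≤ 1 / ((N : ℝ) + (n + 1)) := by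
      apply one_div_le_one_div_of_le (by positivity)
      linarith
    linarith
  have h3 := sum_int g hgc hg0 η hη.le a (N + 1) h2
  have h4 : ∫ y in (a 0)..(a (N + 1)), g y ≤ ∫ y in (a 0)..(a 0 + 2 * Real.pi), g y := by
    have h5 : a (N + 1) ≤ a 0 + 2 * Real.pi := by
      rw [ha]
      simp only
      push_cast
      have h6 : Real.log ((N : ℝ) + (N + 1)) ≤ Real.log (3 * N) := by
        apply Real.log_le_log (by positivity)
        linarith
      rw [Real.log_mul (by norm_num) (by positivity)] at h6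
      have h7 : Real.log 3 ≤ 3 - 1 := Real.log_le_sub_one_of_pos (by norm_num)
      rw [add_zero]
      linarith
    rw [← intervalIntegral.integral_add_adjacent_intervals (hgc.intervalIntegrable (a 0) (a (N + 1)))
      (hgc.intervalIntegrable (a (N + 1)) (a 0 + 2 * Real.pi))]
    have h6 : 0 ≤ ∫ y in (a (N + 1))..(a 0 + 2 * Real.pi), g y :=
      intervalIntegral.integral_nonneg h5 fun y _ => hg0 y
    linarith
  have h5 : ∫ y in (a 0)..(a 0 + 2 * Real.pi), g y = 2 * Real.pi * W.card := by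
    rw [hg, hf]
    rw [parseval W (zz T) ((zz_inj T).injOn) (fun i => phs (b i)) (a 0)]
    congr 1
    rw [sum_congr rfl fun i _ => by rw [(phs_isPh (b i)).norm, one_pow], sum_const, nsmul_eq_mul,
      mul_one]
  unfold av
  rw [← sum_div]
  apply div_le_div_of_nonneg_right _ hη.le
  rw [sum_congr rfl fun n _ => h1 n, Fin.sum_univ_eq_sum_range
    (fun n => ∫ y in (a n)..(a n + η), g y)]
  have h6 : (0 : ℝ) ≤ W.card := Nat.cast_nonneg _
  nlinarith

/-! ### the kernel -/

/-- the kernel -/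
noncomputable def ker (N : ℕ) (η τ : ℝ) : ℂ :=
  (∑ n ∈ Icc N (2 * N), ph τ n) * ((∫ x in (0 : ℝ)..η, Complex.exp ((τ * x : ℝ) * Complex.I)) / η)

theorem osc (η : ℝ) (hη : 0 < η) (τ : ℝ) (hτ : τ ≠ 0) :
    ‖(∫ x in (0 : ℝ)..η, Complex.exp ((τ * x : ℝ) * Complex.I)) / η‖ ≤ 2 / (η * |τ|) := by
  have hc : (τ : ℂ) * Complex.I ≠ 0 := mul_ne_zero (by exact_mod_cast hτ) Complex.I_ne_zero
  have h1 : ∀ x : ℝ, Complex.exp ((τ * x : ℝ) * Complex.I) = Complex.exp ((τ : ℂ) * Complex.I * x) := by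
    intro x
    congr 1
    push_cast
    ring
  simp_rw [h1]
  rw [integral_exp_mul_complex hc, norm_div, norm_div, norm_mul, Complex.norm_I, mul_one,
    Complex.norm_real, Complex.norm_real, Real.norm_of_nonneg hη.le, Real.norm_eq_abs]
  have h2 : ‖Complex.exp ((τ : ℂ) * Complex.I * (η : ℂ)) - Complex.exp ((τ : ℂ) * Complex.I * ((0 : ℝ) : ℂ))‖ ≤ 2 := by
    refine (norm_sub_le _ _).trans ?_
    have h3 : ∀ x : ℝ, ‖Complex.exp ((τ : ℂ) * Complex.I * (x : ℂ))‖ = 1 := by
      intro x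
      rw [← h1]
      exact Complex.norm_exp_ofReal_mul_I _
    rw [h3, h3]
    norm_num
  have hτ0 : 0 < |τ| := abs_pos.2 hτ
  rw [div_div, mul_comm η]
  exact div_le_div_of_nonneg_right h2 (by positivity)

theorem osc_one (η : ℝ) (hη : 0 < η) (τ : ℝ) :
    ‖(∫ x in (0 : ℝ)..η, Complex.exp ((τ * x : ℝ) * Complex.I)) / η‖ ≤ 1 := by
  rw [norm_div, Complex.norm_real, Real.norm_of_nonneg hη.le, div_le_one hη]
  have h := intervalIntegral.norm_integral_le_of_norm_le_const (a := 0) (b := η) (C := 1)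
    (f := fun x : ℝ => Complex.exp ((τ * x : ℝ) * Complex.I))
    (fun x _ => (Complex.norm_exp_ofReal_mul_I _).le)
  rw [sub_zero, one_mul, abs_of_pos hη] at h
  exact h

theorem ker_bound (N : ℕ) (hN : 1 ≤ N) (η : ℝ) (hη : 0 < η) (hηN : 1 / (N : ℝ) ^ 2 ≤ η)
    (τ : ℝ) (hτ : 0 < τ) :
    ‖ker N η τ‖ ≤ 42 * N / τ + 28 * Real.sqrt ((1 + Real.log N) / η) := by
  have hN1 : (1 : ℝ) ≤ N := by exact_mod_cast hN
  have hN0 : (0 : ℝ) < N := by linarith
  have hlog : 0 ≤ Real.log N := Real.log_nonneg hN1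
  have h1 := osc η hη τ hτ.ne'
  have h2 := osc_one η hη τ
  rw [abs_of_pos hτ] at h1
  unfold ker
  rw [norm_mul]
  set O := ‖(∫ x in (0 : ℝ)..η, Complex.exp ((τ * x : ℝ) * Complex.I)) / η‖ with hO
  have hO0 : 0 ≤ O := norm_nonneg _
  have hpos : 0 ≤ 42 * (N : ℝ) / τ := by positivity
  rcases le_or_gt τ ((N : ℝ) ^ 2) with hτN | hτN
  · have h3 := ker_two N hN τ hτ hτN
    have h4 : ‖∑ n ∈ Icc N (2 * N), ph τ n‖ * O ≤
        (42 * N / τ + 14 * Real.sqrt (τ * (1 + Real.log N))) * O := mul_le_mul_of_nonneg_right h3 hO0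
    refine h4.trans ?_
    rw [add_mul]
    apply add_le_add
    · exact mul_le_of_le_one_right hpos h2
    · have h5 : Real.sqrt (τ * (1 + Real.log N)) * O ≤ 2 * Real.sqrt ((1 + Real.log N) / η) := by
        rcases le_or_gt τ (1 / η) with h6 | h6
        · have h7 : Real.sqrt (τ * (1 + Real.log N)) ≤ Real.sqrt ((1 + Real.log N) / η) := by
            apply Real.sqrt_le_sqrt
            calc τ * (1 + Real.log N) ≤ 1 / η * (1 + Real.log N) :=
                  mul_le_mul_of_nonneg_right h6 (by linarith)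
              _ = _ := by ring
          have h8 := mul_le_mul h7 h2 hO0 (Real.sqrt_nonneg _)
          have h9 := Real.sqrt_nonneg ((1 + Real.log N) / η)
          linarith
        · have h7 : Real.sqrt (τ * (1 + Real.log N)) * O ≤
              Real.sqrt (τ * (1 + Real.log N)) * (2 / (η * τ)) :=
            mul_le_mul_of_nonneg_left h1 (Real.sqrt_nonneg _)
          refine h7.trans ?_
          have h8 : Real.sqrt (τ * (1 + Real.log N)) * (1 / (η * τ)) ≤
              Real.sqrt ((1 + Real.log N) / η) := by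
            apply Real.le_sqrt_of_sq_le
            rw [mul_pow, Real.sq_sqrt (by positivity)]
            rw [div_pow, one_pow, mul_pow]
            have h9 : τ * (1 + Real.log N) * (1 / (η ^ 2 * τ ^ 2)) =
                ((1 + Real.log N) / η) * (1 / (η * τ)) := by
              field_simp
            rw [h9]
            apply mul_le_of_le_one_right (by positivity)
            rw [div_le_one (by positivity)]
            rw [div_lt_iff₀ hη] at h6
            linarith
          have e : Real.sqrt (τ * (1 + Real.log N)) * (2 / (η * τ)) =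
              2 * (Real.sqrt (τ * (1 + Real.log N)) * (1 / (η * τ))) := by ring
          rw [e]
          linarith
      calc 14 * Real.sqrt (τ * (1 + Real.log N)) * O
          = 14 * (Real.sqrt (τ * (1 + Real.log N)) * O) := by ring
        _ ≤ 14 * (2 * Real.sqrt ((1 + Real.log N) / η)) := by linarith
        _ = _ := by ring
  · have h3 := triv N τ
    have h4 : ‖∑ n ∈ Icc N (2 * N), ph τ n‖ * O ≤ (N + 1) * (2 / (η * τ)) :=
      mul_le_mul h3 h1 hO0 (by positivity)
    refine h4.trans ?_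
    have h5 : ((N : ℝ) + 1) * (2 / (η * τ)) ≤ 4 / (η * N) := by
      rw [mul_div_assoc', div_le_div_iff₀ (by positivity) (by positivity)]
      have h6 : ((N : ℝ) + 1) * 2 ≤ 4 * N := by linarith
      have h7 : (N : ℝ) * N ≤ τ := by nlinarith
      calc ((N : ℝ) + 1) * 2 * (η * N) ≤ 4 * N * (η * N) :=
            mul_le_mul_of_nonneg_right h6 (by positivity)
        _ = 4 * (η * (N * N)) := by ring
        _ ≤ 4 * (η * τ) := by
            have := mul_le_mul_of_nonneg_left h7 hη.le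
            linarith
    have h6 : 4 / (η * N) ≤ 28 * Real.sqrt ((1 + Real.log N) / η) := by
      have h7 : 1 / (η * N) ≤ Real.sqrt ((1 + Real.log N) / η) := by
        apply Real.le_sqrt_of_sq_le
        rw [div_pow, one_pow, div_le_div_iff₀ (by positivity) hη]
        have h8 : 1 ≤ η * (N : ℝ) ^ 2 := by
          rw [div_le_iff₀ (by positivity)] at hηN
          exact hηN
        rw [mul_pow]
        have h9 : η ≤ η * (η * (N : ℝ) ^ 2) := le_mul_of_one_le_right hη.le h8
        have h10 : η * (η * (N : ℝ) ^ 2) ≤ (1 + Real.log N) * (η ^ 2 * (N : ℝ) ^ 2) := by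
          have : 0 ≤ η ^ 2 * (N : ℝ) ^ 2 := by positivity
          nlinarith
        linarith
      have e : 4 / (η * N) = 4 * (1 / (η * N)) := by ring
      rw [e]
      have := Real.sqrt_nonneg ((1 + Real.log N) / η)
      linarith
    linarith

theorem ker_neg (N : ℕ) (η τ : ℝ) : ‖ker N η (-τ)‖ = ‖ker N η τ‖ := by
  unfold ker
  rw [norm_mul, norm_mul, ph_sum_neg]
  congr 1
  rw [norm_div, norm_div]
  congr 1
  have h : ∀ x : ℝ, Complex.exp ((-τ * x : ℝ) * Complex.I) =
      (starRingEnd ℂ) (Complex.exp ((τ * x : ℝ) * Complex.I)) := by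
    intro x
    rw [← Complex.exp_conj, map_mul, Complex.conj_I, Complex.conj_ofReal]
    congr 1
    push_cast
    ring
  simp_rw [h]
  rw [intervalIntegral.intervalIntegral_conj, Complex.norm_conj]

theorem harm (T : ℕ) (W : Finset (Fin (2 * T + 1))) (i : Fin (2 * T + 1)) :
    ∑ j ∈ W.erase i, 1 / |((zz T i : ℤ) : ℝ) - ((zz T j : ℤ) : ℝ)| ≤ 2 * (1 + Real.log (2 * T + 1)) := by
  have h := harm_one (2 * T) W i
  push_cast at h
  refine le_trans (le_of_eq ?_) h
  apply sum_congr rfl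
  intro j _
  unfold zz
  push_cast
  congr 2
  ring

/-- **The mean over the perturbations, second bound.** -/
theorem av_two (N T : ℕ) (hN : 1 ≤ N) (η : ℝ) (hη : 0 < η) (hηN : 1 / (N : ℝ) ^ 2 ≤ η)
    (W : Finset (Fin (2 * T + 1))) (b : Fin (2 * T + 1) → Fin 4) :
    av (ee N T) η W b ≤ W.card * (N + 1 + 84 * N * (1 + Real.log (2 * T + 1)) +
      W.card * (28 * Real.sqrt ((1 + Real.log N) / η))) := by
  classical
  have hN1 : (1 : ℝ) ≤ N := by exact_mod_cast hN
  have hcont : ∀ m : ℝ, Continuous fun y : ℝ => Complex.exp ((m * y : ℝ) * Complex.I) := by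
    intro m
    fun_prop
  -- one frequency
  have h1 : ∀ n : Fin (N + 1), ((∫ x in (0 : ℝ)..η, ‖fs (ee N T) W b n x‖ ^ 2 : ℝ) : ℂ) =
      ∑ i ∈ W, ∑ j ∈ W, phs (b i) * (starRingEnd ℂ) (phs (b j)) *
        (ph (((zz T i : ℤ) : ℝ) - ((zz T j : ℤ) : ℝ)) (N + n) *
          ∫ x in (0 : ℝ)..η, Complex.exp (((((zz T i : ℤ) : ℝ) - ((zz T j : ℤ) : ℝ)) * x : ℝ) *
            Complex.I)) := by
    intro n
    rw [← intervalIntegral.integral_ofReal]
    have h2 : ∀ x : ℝ, ((‖fs (ee N T) W b n x‖ ^ 2 : ℝ) : ℂ) =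
        ∑ i ∈ W, ∑ j ∈ W, phs (b i) * (starRingEnd ℂ) (phs (b j)) *
        (ph (((zz T i : ℤ) : ℝ) - ((zz T j : ℤ) : ℝ)) (N + n) *
          Complex.exp (((((zz T i : ℤ) : ℝ) - ((zz T j : ℤ) : ℝ)) * x : ℝ) * Complex.I)) := by
      intro x
      unfold fs
      rw [sq_expand]
      apply sum_congr rfl
      intro i _
      apply sum_congr rfl
      intro j _
      unfold ee
      rw [map_mul, ← Complex.exp_conj, map_mul, Complex.conj_I, Complex.conj_ofReal, ph_eq]
      have h3 : Complex.exp (((((zz T i : ℤ) : ℝ) - ((zz T j : ℤ) : ℝ)) *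
          Real.log ((N + (n : ℕ) : ℕ) : ℝ) : ℝ) * Complex.I) *
          Complex.exp (((((zz T i : ℤ) : ℝ) - ((zz T j : ℤ) : ℝ)) * x : ℝ) * Complex.I) =
          Complex.exp ((((zz T i : ℤ) : ℝ) * (Real.log ((N : ℝ) + (n : ℕ)) + x) : ℝ) * Complex.I) *
          Complex.exp ((((zz T j : ℤ) : ℝ) * (Real.log ((N : ℝ) + (n : ℕ)) + x) : ℝ) * -Complex.I) := by
        rw [← Complex.exp_add, ← Complex.exp_add]
        congr 1
        push_cast
        ring
      rw [h3]
      ring
    simp_rw [h2]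
    rw [intervalIntegral.integral_finsetSum]
    · apply sum_congr rfl
      intro i _
      rw [intervalIntegral.integral_finsetSum]
      · apply sum_congr rfl
        intro j _
        rw [intervalIntegral.integral_const_mul, intervalIntegral.integral_const_mul]
      · intro j _
        exact (continuous_const.mul (continuous_const.mul (hcont _))).intervalIntegrable _ _
    · intro i _
      exact (continuous_finsetSum _ fun j _ =>
        continuous_const.mul (continuous_const.mul (hcont _))).intervalIntegrable _ _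
  have h2 : ((av (ee N T) η W b : ℝ) : ℂ) = ∑ i ∈ W, ∑ j ∈ W,
      phs (b i) * (starRingEnd ℂ) (phs (b j)) * ker N η (((zz T i : ℤ) : ℝ) - ((zz T j : ℤ) : ℝ)) := by
    unfold av
    rw [← sum_div, Complex.ofReal_div, Complex.ofReal_sum, sum_congr rfl fun n _ => h1 n, sum_comm,
      sum_div]
    apply sum_congr rfl
    intro i _
    rw [sum_comm, sum_div]
    apply sum_congr rfl
    intro j _
    unfold ker
    have h3 : ∑ n ∈ Icc N (2 * N), ph (((zz T i : ℤ) : ℝ) - ((zz T j : ℤ) : ℝ)) n =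
        ∑ n : Fin (N + 1), ph (((zz T i : ℤ) : ℝ) - ((zz T j : ℤ) : ℝ)) (N + n) := by
      have h4 : Icc N (2 * N) = Ico N (2 * N + 1) := by
        ext n
        simp only [mem_Icc, mem_Ico]
        omega
      rw [h4, sum_Ico_eq_sum_range]
      have h5 : 2 * N + 1 - N = N + 1 := by omega
      rw [h5, Fin.sum_univ_eq_sum_range
        (fun n => ph (((zz T i : ℤ) : ℝ) - ((zz T j : ℤ) : ℝ)) (N + n))]
    rw [h3, ← mul_sum, ← sum_mul]
    ring
  have hav : 0 ≤ av (ee N T) η W b := by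
    unfold av
    apply sum_nonneg
    intro n _
    apply div_nonneg _ hη.le
    exact intervalIntegral.integral_nonneg hη.le fun _ _ => sq_nonneg _
  have h3 : av (ee N T) η W b ≤
      ∑ i ∈ W, ∑ j ∈ W, ‖ker N η (((zz T i : ℤ) : ℝ) - ((zz T j : ℤ) : ℝ))‖ := by
    rw [← Real.norm_of_nonneg hav, ← Complex.norm_real, h2]
    refine (norm_sum_le _ _).trans (sum_le_sum fun i _ => ?_)
    refine (norm_sum_le _ _).trans (sum_le_sum fun j _ => ?_)
    rw [norm_mul, norm_mul, RCLike.norm_conj, (phs_isPh _).norm, (phs_isPh _).norm, one_mul, one_mul]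
  refine h3.trans ?_
  set μ := 28 * Real.sqrt ((1 + Real.log N) / η) with hμ
  have hμ0 : 0 ≤ μ := by positivity
  have h4 : ∀ i ∈ W, ∑ j ∈ W, ‖ker N η (((zz T i : ℤ) : ℝ) - ((zz T j : ℤ) : ℝ))‖ ≤
      N + 1 + 84 * N * (1 + Real.log (2 * T + 1)) + W.card * μ := by
    intro i hi
    rw [← add_sum_erase W _ hi]
    have h5 : ∑ j ∈ W.erase i, ‖ker N η (((zz T i : ℤ) : ℝ) - ((zz T j : ℤ) : ℝ))‖ ≤
        ∑ j ∈ W.erase i, (42 * N * (1 / |((zz T i : ℤ) : ℝ) - ((zz T j : ℤ) : ℝ)|) + μ) := by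
      apply sum_le_sum
      intro j hj
      have hne : zz T j ≠ zz T i := fun h => (ne_of_mem_erase hj) (zz_inj T h)
      rw [mul_one_div]
      rcases lt_or_gt_of_ne hne with h | h
      · have h' : ((zz T j : ℤ) : ℝ) < ((zz T i : ℤ) : ℝ) := by exact_mod_cast h
        rw [abs_of_pos (by linarith)]
        exact ker_bound N hN η hη hηN _ (by linarith)
      · have h' : ((zz T i : ℤ) : ℝ) < ((zz T j : ℤ) : ℝ) := by exact_mod_cast h
        have e : ((zz T i : ℤ) : ℝ) - ((zz T j : ℤ) : ℝ) =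
            -(((zz T j : ℤ) : ℝ) - ((zz T i : ℤ) : ℝ)) := by ring
        rw [e, ker_neg, abs_neg, abs_of_pos (by linarith)]
        exact ker_bound N hN η hη hηN _ (by linarith)
    rw [sum_add_distrib, ← mul_sum, sum_const, nsmul_eq_mul] at h5
    have h6 := mul_le_mul_of_nonneg_left (harm T W i) (by positivity : (0 : ℝ) ≤ 42 * N)
    have h7 : ‖ker N η (((zz T i : ℤ) : ℝ) - ((zz T i : ℤ) : ℝ))‖ ≤ N + 1 := by
      unfold ker
      rw [norm_mul]
      have h8 := triv N (((zz T i : ℤ) : ℝ) - ((zz T i : ℤ) : ℝ))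
      have h9 := osc_one η hη (((zz T i : ℤ) : ℝ) - ((zz T i : ℤ) : ℝ))
      have h10 := mul_le_mul h8 h9 (norm_nonneg _) (by positivity)
      rw [mul_one] at h10
      exact h10
    have h8 : ((W.erase i).card : ℝ) * μ ≤ W.card * μ := by
      apply mul_le_mul_of_nonneg_right _ hμ0
      exact_mod_cast card_le_card (erase_subset _ _)
    linarith
  calc ∑ i ∈ W, ∑ j ∈ W, ‖ker N η (((zz T i : ℤ) : ℝ) - ((zz T j : ℤ) : ℝ))‖
      ≤ ∑ i ∈ W, ((N : ℝ) + 1 + 84 * N * (1 + Real.log (2 * T + 1)) + W.card * μ) := sum_le_sum h4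
    _ = _ := by rw [sum_const, nsmul_eq_mul]

end Pool.Agent.E8helper19.RP
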